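import Mathlib
import Pool.Agent.TH165.ACC.NFin

/-!
# Least weights of the monomials of a polynomial
-/

set_option autoImplicit false
set_option linter.unusedSectionVars false

namespace Pool.Agent.TH165.LSC

open Pool.Agent.H436R3.Fol Pool.Agent.H436R3.KT Pool.Agent.W497.Mld Pool.Agent.TH165.ACC
  MvPolynomial

variable {n : ℕ} {K : Type} [Field K] [Algebra ℂ K]
  [Algebra (MvPolynomial (Fin n) ℂ) K] [IsFractionRing (MvPolynomial (Fin n) ℂ) K]
  [IsScalarTower ℂ (MvPolynomial (Fin n) ℂ) K]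

theorem pr_add_right (m u u' : Fin n → ℤ) : pr m (u + u') = pr m u + pr m u' := by
  simp only [pr, Pi.add_apply, mul_add, Finset.sum_add_distrib]

theorem pr_sum_right {ι : Type*} (m : Fin n → ℤ) (I : Finset ι) (E : ι → Fin n → ℤ) :
    pr m (∑ i ∈ I, E i) = ∑ i ∈ I, pr m (E i) := by
  simp only [pr, Finset.sum_apply, Finset.mul_sum]
  exact Finset.sum_comm

theorem exists_low (w : Fin n → ℤ) {p : MvPolynomial (Fin n) ℂ} (hp : p ≠ 0) :
    ∃ s ∈ p.support, ∀ t ∈ p.support, pr (ex s) w ≤ pr (ex t) w := by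
  have h : p.support.Nonempty := by rwa [Finset.nonempty_iff_ne_empty, Ne, support_eq_empty]
  exact Finset.exists_min_image _ _ h

open Classical in
/-- the least weight of a monomial of `p` -/
noncomputable def nu (w : Fin n → ℤ) (p : MvPolynomial (Fin n) ℂ) : ℤ :=
  if h : p ≠ 0 then pr (ex (exists_low w h).choose) w else 0

theorem nu_mem (w : Fin n → ℤ) {p : MvPolynomial (Fin n) ℂ} (hp : p ≠ 0) :
    ∃ s ∈ p.support, nu w p = pr (ex s) w := by
  rw [nu, dif_pos hp]
  exact ⟨_, (exists_low w hp).choose_spec.1, rfl⟩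

theorem nu_le (w : Fin n → ℤ) {p : MvPolynomial (Fin n) ℂ} {s : Fin n →₀ ℕ}
    (hs : s ∈ p.support) : nu w p ≤ pr (ex s) w := by
  have hp : p ≠ 0 := by rintro rfl; simp at hs
  rw [nu, dif_pos hp]
  exact (exists_low w hp).choose_spec.2 s hs

theorem nu_eq {w : Fin n → ℤ} {p : MvPolynomial (Fin n) ℂ} {s : Fin n →₀ ℕ}
    (hs : s ∈ p.support) (h : ∀ t ∈ p.support, pr (ex s) w ≤ pr (ex t) w) :
    nu w p = pr (ex s) w := by
  have hp : p ≠ 0 := by rintro rfl; simp at hs
  obtain ⟨t, ht, h1⟩ := nu_mem w hp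
  exact le_antisymm (nu_le w hs) (h1 ▸ h t ht)

theorem nu_mon {v : DVal K} (hv : IsMonomial n v) {w : Fin n → ℤ} {k : ℤ} (hk : 0 ≤ k)
    (hw : w = k • tv v) {p : MvPolynomial (Fin n) ℂ} (hp : p ≠ 0) :
    nu w p = k * v.ord (jo (Fin n) K p) := by
  obtain ⟨⟨s, hs, h1⟩, h2⟩ := hv p hp
  rw [nu_eq hs, hw, pr_smul_right, h1]
  intro t ht
  rw [hw, pr_smul_right, pr_smul_right, ← h1]
  exact mul_le_mul_of_nonneg_left (h2 t ht) hk

theorem nu_mul (w : Fin n → ℤ) {p q : MvPolynomial (Fin n) ℂ} (hp : p ≠ 0) (hq : q ≠ 0) :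
    nu w (p * q) = nu w p + nu w q := by
  by_cases hw : w = 0
  · have h0 : ∀ r : MvPolynomial (Fin n) ℂ, nu w r = 0 := by
      intro r
      by_cases hr : r ≠ 0
      · obtain ⟨s, -, h⟩ := nu_mem w hr
        rw [h, hw, pr]
        simp
      · rw [nu, dif_neg hr]
    simp [h0]
  · obtain ⟨k, w', hk, hw', h1⟩ := exists_prim hw
    obtain ⟨v, hv, hv'⟩ := exists_mon (K := FractionRing (MvPolynomial (Fin n) ℂ)) hw'
    rw [← hv'] at h1
    rw [nu_mon hv hk.le h1 hp, nu_mon hv hk.le h1 hq, nu_mon hv hk.le h1 (mul_ne_zero hp hq),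
      map_mul, v.map_mul _ _ (jo_ne hp) (jo_ne hq), mul_add]

theorem nu_le_ord (v : DVal K) {p : MvPolynomial (Fin n) ℂ} (hp : p ≠ 0) :
    nu (tv v) p ≤ v.ord (jo (Fin n) K p) := by
  obtain ⟨π, hπ, h1⟩ := v.surj
  have h3 := (reg_mul_zpow (v := v) hπ h1 (m := nu (tv v) p) fun s hs => nu_le _ hs).1
  have h4 := v.ord_nonneg (mul_ne_zero (jo_ne hp) (zpow_ne_zero _ hπ)) h3
  rw [v.map_mul _ _ (jo_ne hp) (zpow_ne_zero _ hπ), v.ord_zpow hπ, h1] at h4
  omega

theorem nu_super {ι : Type*} (u : Fin n → ℤ) (I : Finset ι) (E : ι → Fin n → ℤ)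
    {p : MvPolynomial (Fin n) ℂ} (hp : p ≠ 0) :
    nu u p + ∑ i ∈ I, nu (E i) p ≤ nu (u + ∑ i ∈ I, E i) p := by
  obtain ⟨s, hs, h⟩ := nu_mem (u + ∑ i ∈ I, E i) hp
  rw [h, pr_add_right, pr_sum_right]
  exact add_le_add (nu_le _ hs) (Finset.sum_le_sum fun i _ => nu_le _ hs)

theorem inCone_over {g : ToricGerm n K} {v : DVal K} (h : OverAt g.P v) : g.InCone (tv v) := by
  intro m hm
  obtain ⟨⟨S, -, hRS, hSv⟩, -⟩ := h
  have h1 : ym K m ∈ g.X.R := by rw [g.hR]; exact ym_mem_LA hm
  have h2 := v.ord_nonneg (ym_ne m) (hSv.1 _ (hRS h1))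
  rwa [ord_ym] at h2

theorem ord_eq_zero_over {g : ToricGerm n K} {v : DVal K} (h : OverAt g.P v) {f : g.X.R}
    (hf : g.P f ≠ 0) : v.ord (f : K) = 0 := by
  obtain ⟨⟨S, -, hRS, hSv⟩, hcen⟩ := h
  have hf0 : (f : K) ≠ 0 := by
    intro h3
    apply hf
    have : f = 0 := Subtype.ext h3
    rw [this, map_zero]
  have h5 := v.ord_nonneg hf0 (hSv.1 _ (hRS f.2))
  have h6 : ¬ v.Pos (f : K) := fun h7 => hf (hcen f h7)
  by_contra h7
  exact h6 (Or.inr (by omega))

/-- prime divisors which do not pass through `P` or do not meet the torus have linear orders -/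
theorem not_thr {g : ToricGerm n K} {p : MvPolynomial (Fin n) ℂ} (hp : Prime p)
    (h : ¬ Thr g p) : (∀ v : DVal K, OverAt g.P v → v.ord (jo (Fin n) K p) = nu (tv v) p) ∧
      ∀ (u : Fin n → ℤ) (I : Finset (Fin g.N)), g.InCone u →
        nu (u + ∑ i ∈ I, g.E i) p = nu u p + ∑ i ∈ I, nu (g.E i) p := by
  by_cases h0 : ∀ i : Fin n, (valP K p hp).ord (cv K i) = 0
  · have hL := g.local_prime hp h0
    have h1 : ¬ OnAt g.P (valP K p hp) := fun h1 => h ⟨hp, h0, h1⟩
    have h2 : ∃ f : g.X.R, (valP K p hp).Pos (f : K) ∧ g.P f ≠ 0 := by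
      by_contra h3
      push Not at h3
      exact h1 ⟨hL, h3⟩
    obtain ⟨f, hf, hPf⟩ := h2
    obtain ⟨M, q, e1, e2, e3⟩ := g.rep f
    have hf0 : (f : K) ≠ 0 := by
      intro h3
      apply hPf
      have : f = 0 := Subtype.ext h3
      rw [this, map_zero]
    have hq : q ≠ 0 := by
      rintro rfl
      rw [coeff_zero] at e2
      exact hPf e2.symm
    have hpq : p ∣ q := by
      by_contra h3
      have h4 := valP_other (K := K) hp hq h3
      have h7 : (tv (valP K p hp) : Fin n → ℤ) = 0 := funext h0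
      rw [← e1, (valP K p hp).map_mul _ _ hf0 (ym_ne _), ord_ym, h7, pr] at h4
      simp only [Pi.zero_apply, mul_zero, Finset.sum_const_zero, add_zero] at h4
      rcases hf with hf | hf
      · exact hf0 hf
      · omega
    obtain ⟨q', rfl⟩ := hpq
    have hq' : q' ≠ 0 := right_ne_zero_of_mul hq
    have hM : M ∈ (p * q').support := by rw [mem_support_iff, e2]; exact hPf
    have hsum : ∀ u, g.InCone u → nu u p + nu u q' = pr (ex M) u := by
      intro u hu
      rw [← nu_mul u hp.ne_zero hq']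
      refine nu_eq hM fun t ht => ?_
      have := hu _ (e3 t ht)
      rw [pr_sub] at this
      omega
    constructor
    · intro v hv
      have h4 : v.ord (jo (Fin n) K (p * q')) = pr (ex M) (tv v) := by
        rw [← e1, v.map_mul _ _ hf0 (ym_ne _), ord_eq_zero_over hv hPf, zero_add, ord_ym]
      rw [map_mul, v.map_mul _ _ (jo_ne hp.ne_zero) (jo_ne hq')] at h4
      have h5 := hsum _ (inCone_over hv)
      have h6 := nu_le_ord v hp.ne_zero
      have h7 := nu_le_ord v hq'
      omega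
    · intro u I hu
      have hE : ∀ i, g.InCone (g.E i) := fun i => ToricGerm.inCone_E i
      have h4 : g.InCone (u + ∑ i ∈ I, g.E i) := by
        intro m hm
        rw [pr_add_right, pr_sum_right]
        exact add_nonneg (hu m hm) (Finset.sum_nonneg fun i _ => hE i m hm)
      have h5 := hsum _ h4
      have h6 := nu_super u I g.E hp.ne_zero
      have h7 := nu_super u I g.E hq'
      have h8 := hsum _ hu
      have h9 : ∑ i ∈ I, nu (g.E i) p + ∑ i ∈ I, nu (g.E i) q' = ∑ i ∈ I, pr (ex M) (g.E i) := by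
        rw [← Finset.sum_add_distrib]
        exact Finset.sum_congr rfl fun i _ => hsum _ (hE i)
      rw [pr_add_right, pr_sum_right] at h5
      omega
  · push Not at h0
    obtain ⟨i, hi⟩ := h0
    have h1 : p ∣ X i := by
      by_contra h3
      exact hi (valP_other (K := K) hp (X_ne_zero i) h3)
    obtain ⟨r, hr⟩ := h1
    have hr0 : r ≠ 0 := by
      rintro rfl
      rw [mul_zero] at hr
      exact X_ne_zero i hr
    have h2 : Associated p (X i) :=
      hp.associated_of_dvd X_prime ⟨r, hr⟩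
    have h3 : ∀ v' : DVal K, v'.ord (jo (Fin n) K p) = v'.ord (cv K i) := fun v' =>
      ord_assoc v' hp.ne_zero h2
    have hru : IsUnit r := by
      obtain ⟨c, hc⟩ := h2
      have : p * r = p * c := by rw [← hr, hc]
      rw [mul_left_cancel₀ hp.ne_zero this]
      exact c.isUnit
    obtain ⟨c, hc⟩ : ∃ c : ℂ, r = C c := by
      have := (MvPolynomial.isUnit_iff_eq_C_of_isReduced).1 hru
      obtain ⟨c, -, hc⟩ := this
      exact ⟨c, hc⟩
    have hc0 : c ≠ 0 := by
      rintro rfl
      rw [C_0] at hc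
      exact hr0 hc
    have hnu : ∀ u : Fin n → ℤ, nu u p = u i := by
      intro u
      have h5 : nu u (p * r) = nu u p + nu u r := nu_mul u hp.ne_zero hr0
      have h6 : nu u r = 0 := by
        rw [nu_eq (s := 0) (p := r)]
        · simp [pr, ACC.ex]
        · rw [mem_support_iff, hc, coeff_C, if_pos rfl]; exact hc0
        · intro t ht
          rw [mem_support_iff, hc, coeff_C] at ht
          by_cases h : 0 = t
          · rw [h]
          · rw [if_neg h] at ht
            exact absurd rfl ht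
      have h7 : nu u (X i) = u i := by
        rw [nu_eq (s := Finsupp.single i 1) (p := X i)]
        · rw [pr, Finset.sum_eq_single i]
          · simp [ACC.ex]
          · intro j _ hj
            simp [ACC.ex, Finsupp.single_eq_of_ne hj]
          · intro h; exact absurd (Finset.mem_univ _) h
        · simp [mem_support_iff]
        · intro t ht
          rw [mem_support_iff, coeff_X] at ht
          by_cases h : Finsupp.single i 1 = t
          · rw [h]
          · rw [if_neg h] at ht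
            exact absurd rfl ht
      rw [← hr, h7, h6] at h5
      omega
    constructor
    · intro v _
      rw [h3, hnu]
      rfl
    · intro u I _
      simp only [hnu, Pi.add_apply, Finset.sum_apply]

end Pool.Agent.TH165.LSC
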