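import Mathlib
import Pool.Agent.TH165.ACC.NFin

/-!
# Rays of a face of the dual cone (pure linear algebra)
-/

set_option autoImplicit false
set_option linter.unusedSectionVars false

namespace Pool.Agent.TH165.LSC

open Pool.Agent.H436R3.Fol Pool.Agent.H436R3.KT Pool.Agent.W497.Mld Pool.Agent.TH165.ACC MvPolynomial

namespace Rays


variable {n : ℕ}

/-- a vector that is dependent on an independent family has a nonzero multiple in its span -/
theorem exists_smul_mem {ι : Type} [Fintype ι] {m : ι → Fin n → ℤ} (hm : LinearIndependent ℤ m)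
    {x : Fin n → ℤ}
    (h : ¬ LinearIndependent ℤ (fun o : Option ι => o.elim x m)) :
    ∃ (k : ℤ) (a : ι → ℤ), k ≠ 0 ∧ k • x = ∑ i, a i • m i := by
  classical
  rw [Fintype.not_linearIndependent_iff] at h
  obtain ⟨g, hg, i, hi⟩ := h
  rw [Fintype.sum_option] at hg
  simp only [Option.elim] at hg
  by_cases h0 : g none = 0
  · exfalso
    rw [h0, zero_smul, zero_add] at hg
    have h1 := Fintype.linearIndependent_iff.1 hm (fun i => g (some i)) hg
    cases i with
    | none => exact hi h0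
    | some i => exact hi (h1 i)
  · refine ⟨g none, fun i => -g (some i), h0, ?_⟩
    rw [eq_neg_of_add_eq_zero_left hg, ← Finset.sum_neg_distrib]
    exact Finset.sum_congr rfl fun i _ => (neg_smul _ _).symm

theorem aux {N : ℕ} (L : Fin N → (Fin n → ℤ) →ₗ[ℤ] ℤ) (l : (Fin n → ℤ) →ₗ[ℤ] ℤ)
    (full : ∀ x, (∀ i, L i x = 0) → x = 0) :
    ∃ (c : ℕ) (m : Fin c → Fin n → ℤ) (I : Finset (Fin N)), LinearIndependent ℤ m ∧
      (∀ i, (∀ j, 0 ≤ L j (m i)) ∧ l (m i) = 0) ∧
      (∀ x, (∀ j, 0 ≤ L j x) → l x = 0 → ∃ k : ℤ, k ≠ 0 ∧ k • x ∈ Submodule.span ℤ (Set.range m)) ∧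
      (∀ x, (∀ j, 0 ≤ L j x) → x ≠ 0 → l x = 0 → ∃ i ∈ I, 0 < L i x) ∧ I.card ≤ c ∧
      (I.card = c → ∀ δ : Fin n → ℤ, (∃ k : ℤ, k ≠ 0 ∧ k • δ ∈ Submodule.span ℤ (Set.range m)) →
        (∀ i ∈ I, 0 ≤ L i δ) → ∀ j, 0 ≤ L j δ) := by
  classical
  -- a maximal independent family
  let P : ℕ → Prop := fun c => ∃ m : Fin c → Fin n → ℤ, LinearIndependent ℤ m ∧
    ∀ i, (∀ j, 0 ≤ L j (m i)) ∧ l (m i) = 0
  have hbound : ∀ c, P c → c ≤ n := by
    rintro c ⟨m, hm, -⟩
    have := hm.fintype_card_le_finrank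
    simpa using this
  have hP0 : P 0 := ⟨fun i => i.elim0, linearIndependent_empty_type, fun i => i.elim0⟩
  obtain ⟨c, hc, hmax⟩ : ∃ c, P c ∧ ∀ c', P c' → c' ≤ c := by
    refine ⟨Nat.findGreatest P n, Nat.findGreatest_spec (P := P) (Nat.zero_le n) hP0, ?_⟩
    intro c' hc'
    exact Nat.le_findGreatest (hbound c' hc') hc'
  have hmax' : ∀ (ι : Type) [Fintype ι] (v : ι → Fin n → ℤ), LinearIndependent ℤ v →
      (∀ i, (∀ j, 0 ≤ L j (v i)) ∧ l (v i) = 0) → Fintype.card ι ≤ c := by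
    intro ι _ v hv hv2
    apply hmax
    exact ⟨v ∘ (Fintype.equivFin ι).symm, hv.comp _ (Fintype.equivFin ι).symm.injective,
      fun i => hv2 _⟩
  obtain ⟨m, hm, hmF⟩ := hc
  -- a minimal set
  let Q : Finset (Fin N) → Prop := fun I =>
    ∀ x, (∀ j, 0 ≤ L j x) → x ≠ 0 → l x = 0 → ∃ i ∈ I, 0 < L i x
  have hQ : Q Finset.univ := by
    intro x hx hx0 _
    by_contra hcon
    push Not at hcon
    exact hx0 (full x fun i => le_antisymm (hcon i (Finset.mem_univ i)) (hx i))
  obtain ⟨I, hI, hmin⟩ := WellFounded.has_min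
    (wellFounded_lt : WellFounded ((· < ·) : Finset (Fin N) → Finset (Fin N) → Prop))
    {I | Q I} ⟨_, hQ⟩
  have hX : ∀ i : I, ∃ x : Fin n → ℤ, (∀ j, 0 ≤ L j x) ∧ l x = 0 ∧ 0 < L i x ∧
      ∀ j ∈ I, j ≠ i → L j x = 0 := by
    intro i
    have h1 : ¬ Q (I.erase i) := fun h => hmin _ h (Finset.erase_ssubset i.2)
    have h2 : ∃ x, (∀ j, 0 ≤ L j x) ∧ x ≠ 0 ∧ l x = 0 ∧ ∀ j ∈ I.erase i, ¬ 0 < L j x := by
      by_contra hcon
      apply h1
      intro x hx hx0 hlx
      by_contra hcon2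
      push Not at hcon2
      exact hcon ⟨x, hx, hx0, hlx, fun j hj => not_lt.2 (hcon2 j hj)⟩
    obtain ⟨x, hx, hx0, hlx, hxj⟩ := h2
    have h3 : ∀ j ∈ I, j ≠ i → L j x = 0 := fun j hj hji =>
      le_antisymm (not_lt.1 (hxj j (Finset.mem_erase.2 ⟨hji, hj⟩))) (hx j)
    refine ⟨x, hx, hlx, ?_, h3⟩
    obtain ⟨j, hj, hj2⟩ := hI x hx hx0 hlx
    by_cases hji : j = i
    · rwa [hji] at hj2
    · exact absurd (h3 j hj hji) hj2.ne'
  choose X hX1 hX2 hX3 hX4 using hX
  have hpair : ∀ (a : I → ℤ) (j : I), L j (∑ i, a i • X i) = a j * L j (X j) := by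
    intro a j
    rw [map_sum, Finset.sum_eq_single j]
    · rw [map_smul, smul_eq_mul]
    · intro i _ hij
      rw [map_smul, hX4 i j j.2 (fun h => hij (Subtype.ext h.symm)), smul_zero]
    · intro h
      exact absurd (Finset.mem_univ j) h
  have hXind : LinearIndependent ℤ X := by
    rw [Fintype.linearIndependent_iff]
    intro a ha j
    have h1 := hpair a j
    rw [ha, map_zero] at h1
    rcases mul_eq_zero.1 h1.symm with h | h
    · exact h
    · exact absurd h (hX3 j).ne'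
  have hcard : I.card ≤ c := by
    have := hmax' I X hXind fun i => ⟨hX1 i, hX2 i⟩
    rwa [Fintype.card_coe] at this
  have hspan : ∀ x, (∀ j, 0 ≤ L j x) → l x = 0 →
      ∃ k : ℤ, k ≠ 0 ∧ k • x ∈ Submodule.span ℤ (Set.range m) := by
    intro x hx hlx
    have hdep : ¬ LinearIndependent ℤ (fun o : Option (Fin c) => o.elim x m) := by
      intro h
      have := hmax' (Option (Fin c)) _ h (by
        rintro (_ | i)
        · exact ⟨hx, hlx⟩
        · exact hmF i)
      simp at this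
    obtain ⟨k, a, hk, hka⟩ := exists_smul_mem hm hdep
    refine ⟨k, hk, ?_⟩
    rw [hka]
    exact Submodule.sum_mem _ fun i _ => Submodule.smul_mem _ _
      (Submodule.subset_span (Set.mem_range_self i))
  refine ⟨c, m, I, hm, hmF, hspan, hI, hcard, ?_⟩
  rintro hIc δ ⟨k, hk, hkδ⟩ hδ j
  -- `δ` is dependent on the `X i`
  have hdep : ∃ (k' : ℤ) (a : I → ℤ), k' ≠ 0 ∧ k' • δ = ∑ i, a i • X i := by
    by_contra hcon
    have hind : LinearIndependent ℤ (fun o : Option I => o.elim δ X) := by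
      by_contra h
      exact hcon (exists_smul_mem hXind h)
    choose kk hkk1 hkk2 using fun i : I => hspan (X i) (hX1 i) (hX2 i)
    let w : Option I → Submodule.span ℤ (Set.range m) := fun o =>
      match o with
      | none => ⟨k • δ, hkδ⟩
      | some i => ⟨kk i • X i, hkk2 i⟩
    have hw : LinearIndependent ℤ w := by
      rw [Fintype.linearIndependent_iff]
      intro g hg
      have h1 : ∑ o, (g o * (o.elim k kk)) • (o.elim δ X : Fin n → ℤ) = 0 := by
        have h2 := congrArg (Submodule.subtype (Submodule.span ℤ (Set.range m))) hg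
        rw [map_sum, map_zero] at h2
        rw [← h2]
        refine Finset.sum_congr rfl fun o _ => ?_
        rcases o with _ | i
        · simp [w, mul_smul]
        · simp [w, mul_smul]
      have h3 := Fintype.linearIndependent_iff.1 hind _ h1
      intro o
      rcases mul_eq_zero.1 (h3 o) with h | h
      · exact h
      · rcases o with _ | i
        · exact absurd h hk
        · exact absurd h (hkk1 i)
    have hrank : Module.finrank ℤ (Submodule.span ℤ (Set.range m)) = c := by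
      rw [finrank_span_eq_card hm, Fintype.card_fin]
    have h4 := hw.fintype_card_le_finrank
    rw [hrank, Fintype.card_option, Fintype.card_coe, hIc] at h4
    omega
  obtain ⟨k', a, hk', ha⟩ := hdep
  have hLδ : ∀ j, k' * L j δ = ∑ i, a i * L j (X i) := by
    intro j
    have := congrArg (L j) ha
    rw [map_smul, map_sum, smul_eq_mul] at this
    rw [this]
    exact Finset.sum_congr rfl fun i _ => by rw [map_smul, smul_eq_mul]
  have hkpos : 0 < k' * k' := mul_self_pos.2 hk'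
  have hapos : ∀ i : I, 0 ≤ k' * a i := by
    intro i
    have h1 := hpair a i
    rw [← ha, map_smul, smul_eq_mul] at h1
    have h2 : (k' * a i) * L i (X i) = k' * k' * L i δ := by
      rw [mul_assoc, ← h1]; ring
    have h3 : 0 ≤ (k' * a i) * L i (X i) := by
      rw [h2]; exact mul_nonneg hkpos.le (hδ i i.2)
    exact nonneg_of_mul_nonneg_left h3 (hX3 i)
  have h5 : k' * k' * L j δ = ∑ i, (k' * a i) * L j (X i) := by
    rw [mul_assoc, hLδ j, Finset.mul_sum]
    exact Finset.sum_congr rfl fun i _ => by ring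
  have h6 : 0 ≤ k' * k' * L j δ := by
    rw [h5]
    exact Finset.sum_nonneg fun i _ => mul_nonneg (hapos i) (hX1 i j)
  exact nonneg_of_mul_nonneg_right h6 hkpos

/-- `pr` as a linear map -/
def prL (w : Fin n → ℤ) : (Fin n → ℤ) →ₗ[ℤ] ℤ where
  toFun x := pr x w
  map_add' x y := pr_add x y w
  map_smul' k x := by rw [pr_smul]; rfl

end Rays

variable {n : ℕ} {K : Type} [Field K] [Algebra ℂ K]
  [Algebra (MvPolynomial (Fin n) ℂ) K] [IsFractionRing (MvPolynomial (Fin n) ℂ) K]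
  [IsScalarTower ℂ (MvPolynomial (Fin n) ℂ) K]

theorem exists_rays (g : ToricGerm n K) {u : Fin n → ℤ} (hu : g.InCone u) :
    ∃ (c : ℕ) (m : Fin c → Fin n → ℤ) (I : Finset (Fin g.N)), LinearIndependent ℤ m ∧
      (∀ i, m i ∈ Cn g.E ∧ pr (m i) u = 0) ∧
      (∀ x ∈ Cn g.E, pr x u = 0 → ∃ k : ℤ, k ≠ 0 ∧ k • x ∈ Submodule.span ℤ (Set.range m)) ∧
      (∀ x ∈ Cn g.E, x ≠ 0 → pr x u = 0 → ∃ i ∈ I, 0 < pr x (g.E i)) ∧ I.card ≤ c ∧
      (I.card = c → ∀ δ : Fin n → ℤ, (∃ k : ℤ, k ≠ 0 ∧ k • δ ∈ Submodule.span ℤ (Set.range m)) →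
        (∀ i ∈ I, 0 ≤ pr δ (g.E i)) → δ ∈ Cn g.E) :=
  Rays.aux (fun i => Rays.prL (g.E i)) (Rays.prL u) g.full

end Pool.Agent.TH165.LSC
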