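import Mathlib
import Pool.Agent.TH165.LSC.Nu

/-!
# The upper bound for the minimal log discrepancy
-/

set_option autoImplicit false
set_option linter.unusedSectionVars false

namespace Pool.Agent.TH165.LSC

open Pool.Agent.H436R3.Fol Pool.Agent.H436R3.KT Pool.Agent.W497.Mld Pool.Agent.TH165.ACC
  MvPolynomial

variable {n : ℕ} {K : Type} [Field K] [Algebra ℂ K]
  [Algebra (MvPolynomial (Fin n) ℂ) K] [IsFractionRing (MvPolynomial (Fin n) ℂ) K]
  [IsScalarTower ℂ (MvPolynomial (Fin n) ℂ) K]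

/-- the minimal log discrepancy is at most the log discrepancy of the lattice point
`u + ∑ i ∈ I, E i` -/
theorem mld_le {g : ToricGerm n K} {B : EffDiv g.X} {e : LocEq B g.P} {m : ℝ} (hn : 0 < n)
    (hm0 : 0 ≤ m) (hm : Pool.Agent.W497.Mld.IsMld e m)
    {F : Finset (MvPolynomial (Fin n) ℂ)} {c : MvPolynomial (Fin n) ℂ → ℝ}
    (hFp : ∀ p ∈ F, Prime p)
    (hc : ∀ v : DVal K, ∑ k, e.ρ k * (v.ord (e.g k) : ℝ) =
      ∑ p ∈ F, c p * (v.ord (jo (Fin n) K p) : ℝ))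
    {u : Fin n → ℤ} (I : Finset (Fin g.N)) (hint : g.Inter (u + ∑ i ∈ I, g.E i)) :
    m ≤ I.card - ∑ p ∈ F, c p * (nu u p : ℝ) - ∑ p ∈ F, c p *
      ((nu (u + ∑ i ∈ I, g.E i) p : ℝ) - nu u p - ∑ i ∈ I, (nu (g.E i) p : ℝ)) := by
  obtain ⟨k, u', hk, hu', h1⟩ := exists_prim (hint.ne_zero hn)
  obtain ⟨v, hv, rfl⟩ := exists_mon (K := K) hu'
  have hk' : (0 : ℝ) < k := by exact_mod_cast hk
  have hk1 : (1 : ℝ) ≤ k := by exact_mod_cast hk
  have hint' : g.Inter (tv v) := by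
    intro x hx hx0
    have h2 := hint x hx hx0
    rw [h1, pr_smul_right] at h2
    exact pos_of_mul_pos_right h2 hk.le
  have hov := ToricGerm.overGerm hv hint'
  have h2 : m ≤ -∑ k, e.ρ k * (v.ord (e.g k) : ℝ) := hm.2 ⟨v, hov, (logDisc_mon hv).2 rfl⟩
  have h3 : (k : ℝ) * ∑ k, e.ρ k * (v.ord (e.g k) : ℝ) =
      ∑ p ∈ F, c p * (nu (u + ∑ i ∈ I, g.E i) p : ℝ) := by
    rw [hc, Finset.mul_sum]
    refine Finset.sum_congr rfl fun p hp => ?_
    rw [nu_mon hv hk.le h1 (hFp p hp).ne_zero]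
    push_cast
    ring
  have h4 : m ≤ -∑ p ∈ F, c p * (nu (u + ∑ i ∈ I, g.E i) p : ℝ) := by
    rw [← h3]
    nlinarith
  have hE : ∀ i, -∑ p ∈ F, c p * (nu (g.E i) p : ℝ) ≤ 1 := by
    intro i
    obtain ⟨vE, hvE, htE⟩ := exists_mon (K := K) (g.prim i)
    obtain ⟨b, hb, h5⟩ := e.eq vE (ToricGerm.onAt_E hvE htE)
    have h6 : b = -1 := hb.unique (can_mon g.e g.hT hvE)
    have h7 : ∑ p ∈ F, c p * (nu (g.E i) p : ℝ) = ∑ k, e.ρ k * (vE.ord (e.g k) : ℝ) := by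
      rw [hc]
      refine Finset.sum_congr rfl fun p hp => ?_
      rw [nu_mon hvE (k := 1) one_pos.le (by rw [one_smul, htE]) (hFp p hp).ne_zero]
      push_cast
      ring
    rw [h7, ← h5, h6]
    have := mult_nonneg B vE
    push_cast
    linarith
  have h5 : -∑ i ∈ I, ∑ p ∈ F, c p * (nu (g.E i) p : ℝ) ≤ I.card := by
    rw [← Finset.sum_neg_distrib, Finset.cast_card]
    exact Finset.sum_le_sum fun i _ => hE i
  have h6 : ∑ i ∈ I, ∑ p ∈ F, c p * (nu (g.E i) p : ℝ) =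
      ∑ p ∈ F, c p * ∑ i ∈ I, (nu (g.E i) p : ℝ) := by
    rw [Finset.sum_comm]
    exact Finset.sum_congr rfl fun p _ => by rw [Finset.mul_sum]
  rw [h6] at h5
  simp only [mul_sub, Finset.sum_sub_distrib]
  linarith

end Pool.Agent.TH165.LSC
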