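import Mathlib
import Pool.Agent.TH165.ACC.NFin

/-!
# The Jacobian inequality for functions with independent logarithmic gradients
-/

set_option autoImplicit false
set_option linter.unusedSectionVars false

namespace Pool.Agent.TH165.LSC

open Pool.Agent.H436R3.Fol Pool.Agent.H436R3.KT Pool.Agent.W497.Mld Pool.Agent.TH165.ACC MvPolynomial

variable {n : ℕ} {K : Type} [Field K] [Algebra ℂ K]
  [Algebra (MvPolynomial (Fin n) ℂ) K] [IsFractionRing (MvPolynomial (Fin n) ℂ) K]
  [IsScalarTower ℂ (MvPolynomial (Fin n) ℂ) K]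

/-- linearly independent rows over a field have a nonzero maximal minor -/
private theorem exists_minor_field {L : Type} [Field L] {J : Type} [Fintype J] [DecidableEq J]
    (A : Matrix J (Fin n) L) (h : LinearIndependent L A.row) :
    ∃ σ : J → Fin n, Function.Injective σ ∧ (Matrix.of fun a b => A b (σ a)).det ≠ 0 := by
  obtain ⟨κ, a, ha, hspan, hind⟩ := exists_linearIndependent' L A.col
  have h1 : Submodule.span L (Set.range A.col) = ⊤ := by
    apply Submodule.eq_top_of_finrank_eq
    rw [← Matrix.rank_eq_finrank_span_cols, h.rank_matrix, Module.finrank_fintype_fun_eq_card]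
  have hfin : Finite κ := Finite.of_injective a ha
  have := Fintype.ofFinite κ
  let b : Module.Basis κ L (J → L) := Module.Basis.mk hind (by rw [hspan, h1])
  have hcard : Fintype.card κ = Fintype.card J := by
    rw [← Module.finrank_eq_card_basis b, Module.finrank_fintype_fun_eq_card]
  let e : J ≃ κ := (Fintype.equivOfCardEq hcard).symm
  refine ⟨fun j => a (e j), ha.comp e.injective, ?_⟩
  have h2 : LinearIndependent L fun j : J => A.col (a (e j)) := hind.comp e e.injective
  have h3 : LinearIndependent L (Matrix.of fun (i j : J) => A j (a (e i))).row := h2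
  rw [Matrix.linearIndependent_rows_iff_isUnit, Matrix.isUnit_iff_isUnit_det] at h3
  exact h3.ne_zero

/-- The Jacobian inequality for functions with independent logarithmic gradients. -/
theorem jac_general {g : ToricGerm n K} {v : DVal K} {N : ℤ} (hN : IsCanOrd g.X.T v N)
    {L : Type} [Field L] (φ : v.O →+* L) (hφ : ∀ x : v.O, φ x = 0 ↔ v.Pos (x : K))
    {J : Type} [Fintype J] [DecidableEq J] (H : J → K) (hH : ∀ j, H j ≠ 0)
    (DH : J → Fin n → v.O) (hD : ∀ j l, (DH j l : K) = tor K l (H j))
    (hind : LinearIndependent L fun (j : J) (l : Fin n) => φ (DH j l)) :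
    ∑ j, v.ord (H j) ≤ N + 1 := by
  classical
  obtain ⟨σ, hσ, hdet⟩ := exists_minor_field (Matrix.of fun (j : J) (l : Fin n) => φ (DH j l)) hind
  let AO : Matrix J J v.O := Matrix.of fun a b => DH b (σ a)
  have hAO : AO.det ∉ mvI v := by
    intro h2
    apply hdet
    have h3 : φ AO.det = 0 := (hφ _).2 h2
    rw [RingHom.map_det] at h3
    rw [← h3]
    rfl
  obtain ⟨hd0, hd⟩ := ord_eq_zero_of_notMem hAO
  let A1 : Matrix J J K := Matrix.of fun a b => tor K (σ a) (H b)
  have hdK : (AO.det : K) = A1.det := by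
    have := v.O.subtype.map_det AO
    change (AO.det : K) = _ at this
    rw [this]
    congr 1
    ext a b
    exact hD b (σ a)
  rw [hdK] at hd0 hd
  let Cc : Type := ↑((Set.range σ)ᶜ)
  let ε : J ⊕ Cc ≃ Fin n :=
    (Equiv.sumCongr (Equiv.ofInjective σ hσ) (Equiv.refl _)).trans
      (Equiv.Set.sumCompl (Set.range σ))
  have hε1 : ∀ a : J, ε (Sum.inl a) = σ a := fun a => rfl
  have hε2 : ∀ i : Cc, ε (Sum.inr i) = i.1 := fun i => rfl
  let h : J ⊕ Cc → K := Sum.elim (fun j => H j) fun i => cv K i.1
  have hh : ∀ x, h x ≠ 0 := by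
    rintro (x | x)
    · exact hH _
    · exact cv_ne _
  let C1 : Matrix Cc J K := Matrix.of fun a b => tor K a.1 (H b)
  have hblock : (Matrix.of fun x y => tor K (ε x) (h y)) =
      Matrix.fromBlocks A1 0 C1 (Matrix.diagonal fun i : Cc => cv K i.1) := by
    ext x y
    rcases x with x | x <;> rcases y with y | y
    · rfl
    · change tor K (σ x) (cv K y.1) = 0
      rw [tor_cv, if_neg]
      intro h2
      exact y.2 ⟨x, h2⟩
    · rfl
    · change tor K x.1 (cv K y.1) = Matrix.diagonal (fun i : Cc => cv K i.1) x y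
      rw [tor_cv, Matrix.diagonal_apply]
      by_cases h2 : x = y
      · subst h2; simp
      · rw [if_neg (fun h3 => h2 (Subtype.ext h3)), if_neg h2]
  have hcv : (∏ i : Cc, cv K i.1) ≠ 0 := Finset.prod_ne_zero_iff.2 fun b _ => cv_ne _
  have hdetall : (Matrix.of fun x y => tor K (ε x) (h y)).det = A1.det * ∏ i : Cc, cv K i.1 := by
    rw [hblock, Matrix.det_fromBlocks_zero₁₂, Matrix.det_diagonal]
  have key := can_ge v hN (g.e.trans ε.symm) (fun x => tor K (ε x))
    (fun i => by rw [g.hT]; simp) h hh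
    (by rw [hdetall]; exact mul_ne_zero hd0 hcv)
  rw [hdetall, v.map_mul _ _ hd0 hcv, hd, v.ord_prod _ _ fun i _ => cv_ne _,
    Fintype.sum_sum_type] at key
  have h10 : (∑ x : J, v.ord (h (Sum.inl x))) = ∑ x : J, v.ord (H x) := rfl
  have h11 : (∑ x : Cc, v.ord (h (Sum.inr x))) = ∑ x : Cc, v.ord (cv K x.1) := rfl
  rw [h10, h11] at key
  linarith

end Pool.Agent.TH165.LSC
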