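import Mathlib
import Pool.Agent.TH165.LSC.P1

/-!
# The Jacobian inequality with an exchanged function
-/

set_option autoImplicit false
set_option linter.unusedSectionVars false

namespace Pool.Agent.TH165.LSC

open Pool.Agent.H436R3.Fol Pool.Agent.H436R3.KT Pool.Agent.W497.Mld Pool.Agent.TH165.ACC
  MvPolynomial

variable {n : ℕ} {K : Type} [Field K] [Algebra ℂ K]
  [Algebra (MvPolynomial (Fin n) ℂ) K] [IsFractionRing (MvPolynomial (Fin n) ℂ) K]
  [IsScalarTower ℂ (MvPolynomial (Fin n) ℂ) K]

theorem exchange {L V ι : Type} [Field L] [AddCommGroup V] [Module L V] [Fintype ι]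
    {a : ι → V} (ha : LinearIndependent L a) {b : V} (hb : b ≠ 0) :
    LinearIndependent L (fun o : Option ι => o.elim b a) ∨
      ∃ j0, LinearIndependent L
        (fun o : Option {j : ι // j ≠ j0} => o.elim b fun j : {j : ι // j ≠ j0} => a j.1) := by
  classical
  have hopt : ∀ {κ : Type} (a' : κ → V), LinearIndependent L a' →
      b ∉ Submodule.span L (Set.range a') →
      LinearIndependent L (fun o : Option κ => o.elim b a') := by
    intro κ a' h1 h2
    exact linearIndependent_option.2 ⟨h1, h2⟩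
  by_cases hmem : b ∈ Submodule.span L (Set.range a)
  · right
    obtain ⟨β, hβ⟩ := (Submodule.mem_span_range_iff_exists_fun L).1 hmem
    obtain ⟨j0, hj0⟩ : ∃ j0, β j0 ≠ 0 := by
      by_contra h
      push Not at h
      apply hb
      rw [← hβ]
      exact Finset.sum_eq_zero fun j _ => by rw [h j, zero_smul]
    refine ⟨j0, hopt _ (ha.comp _ Subtype.val_injective) fun h => ?_⟩
    obtain ⟨γ, hγ⟩ := (Submodule.mem_span_range_iff_exists_fun L).1 h
    let γ' : ι → L := fun j => if hj : j ≠ j0 then γ ⟨j, hj⟩ else 0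
    have h3 : γ' j0 = 0 := by simp [γ']
    have h1 : ∑ j, γ' j • a j = b := by
      rw [← hγ, Fintype.sum_eq_add_sum_subtype_ne (fun j => γ' j • a j) j0, h3, zero_smul,
        zero_add]
      refine Finset.sum_congr rfl fun j _ => ?_
      have : γ' j.1 = γ j := by simp only [γ']; rw [dif_pos j.2]
      rw [this]
    have h2 := (Fintype.linearIndependent_iff.1 ha) (fun j => β j - γ' j) (by
      simp only [sub_smul, Finset.sum_sub_distrib]
      rw [hβ, h1, sub_self]) j0
    rw [h3, sub_zero] at h2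
    exact hj0 h2
  · exact Or.inl (hopt _ ha hmem)

variable {g : ToricGerm n K} {v : DVal K} {N : ℤ} {L : Type} [Field L]

theorem jac_card (hN : IsCanOrd g.X.T v N) (φ : v.O →+* L)
    (hφ : ∀ x : v.O, φ x = 0 ↔ v.Pos (x : K)) {J : Type} [Fintype J] (H : J → K)
    (hH : ∀ j, v.Pos (H j)) (DH : J → Fin n → v.O) (hD : ∀ j l, (DH j l : K) = tor K l (H j))
    (hind : LinearIndependent L fun (j : J) (l : Fin n) => φ (DH j l)) :
    (∀ j, 1 ≤ v.ord (H j)) ∧ ∑ j, v.ord (H j) ≤ N + 1 := by
  classical
  have hne : ∀ j, H j ≠ 0 := by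
    intro j h
    apply hind.ne_zero j
    funext l
    have : DH j l = 0 := Subtype.ext (by rw [hD, h, map_zero]; rfl)
    change φ (DH j l) = 0
    rw [this, map_zero]
  refine ⟨fun j => ?_, jac_general hN φ hφ H hne DH hD hind⟩
  rcases hH j with h | h
  · exact absurd h (hne j)
  · omega

theorem jac_exchange (hN : IsCanOrd g.X.T v N) (φ : v.O →+* L)
    (hφ : ∀ x : v.O, φ x = 0 ↔ v.Pos (x : K)) {J : Type} [Fintype J] (H : J → K)
    (hH : ∀ j, v.Pos (H j)) (DH : J → Fin n → v.O) (hD : ∀ j l, (DH j l : K) = tor K l (H j))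
    (hind : LinearIndependent L fun (j : J) (l : Fin n) => φ (DH j l)) {f : K} (hf : v.Pos f)
    (Df : Fin n → v.O) (hDf : ∀ l, (Df l : K) = tor K l f) (hf' : ∃ l : Fin n, ¬ v.Pos (tor K l f)) :
    v.ord f + Fintype.card J ≤ N + 2 := by
  classical
  have hb : (fun l => φ (Df l)) ≠ 0 := by
    obtain ⟨l, hl⟩ := hf'
    intro h
    apply hl
    have := congrFun h l
    rw [← hDf]
    exact (hφ _).1 this
  have hcard : ∀ {κ : Type} [Fintype κ] (ι : κ → J), LinearIndependent L
      (fun o : Option κ => o.elim (fun l => φ (Df l)) fun j => fun l => φ (DH (ι j) l)) →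
      v.ord f + Fintype.card κ ≤ N + 1 := by
    intro κ _ ι hi
    have h1 := jac_card hN φ hφ (J := Option κ) (fun o => o.elim f fun j => H (ι j))
      (by rintro (_ | j); exacts [hf, hH _])
      (fun o => o.elim Df fun j => DH (ι j))
      (by rintro (_ | j) l; exacts [hDf l, hD _ l])
      (by
        convert hi using 1
        funext o
        rcases o with _ | j <;> rfl)
    have h2 := h1.2
    rw [Fintype.sum_option] at h2
    have h3 : (Fintype.card κ : ℤ) ≤ ∑ j : κ, v.ord (H (ι j)) := by
      have h4 := Finset.sum_le_sum (s := (Finset.univ : Finset κ))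
        fun j _ => (h1.1 (some j) : (1 : ℤ) ≤ v.ord (H (ι j)))
      simpa using h4
    have h5 : v.ord f + ∑ j : κ, v.ord (H (ι j)) ≤ N + 1 := h2
    omega
  rcases exchange hind hb with h | ⟨j0, h⟩
  · have := hcard (κ := J) id h
    omega
  · have h1 := hcard (κ := {j // j ≠ j0}) (fun j => j.1) h
    have h2 : Fintype.card {j // j ≠ j0} = Fintype.card J - 1 := by
      rw [Fintype.card_subtype_compl, Fintype.card_subtype_eq]
    have h3 : 0 < Fintype.card J := Fintype.card_pos_iff.2 ⟨j0⟩
    omega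

end Pool.Agent.TH165.LSC
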