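import Mathlib
import Pool.Agent.TH165.ACC.NFin

/-!
# Project LSC (helper165): the Vandermonde argument (job 5130, written by helper374)
-/

set_option autoImplicit false
set_option linter.unusedSectionVars false

namespace Pool.Agent.TH165.LSC

open Pool.Agent.H436R3.Fol Pool.Agent.H436R3.KT Pool.Agent.W497.Mld Pool.Agent.TH165.ACC MvPolynomial

variable {n : ℕ} {K : Type} [Field K] [Algebra ℂ K]
  [Algebra (MvPolynomial (Fin n) ℂ) K] [IsFractionRing (MvPolynomial (Fin n) ℂ) K]
  [IsScalarTower ℂ (MvPolynomial (Fin n) ℂ) K]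

namespace P4

/-! ### linear algebra -/

lemma pr_add_right (m u w : Fin n → ℤ) : pr m (u + w) = pr m u + pr m w := by
  simp only [pr, Pi.add_apply, mul_add, Finset.sum_add_distrib]

lemma clear_den {ι : Type} [Finite ι] (c : ι → ℚ) :
    ∃ (b : ℤ) (z : ι → ℤ), b ≠ 0 ∧ ∀ i, (z i : ℚ) = b * c i := by
  obtain ⟨b, hb⟩ := IsLocalization.exist_integer_multiples_of_finite (nonZeroDivisors ℤ) c
  choose z hz using hb
  refine ⟨b, z, nonZeroDivisors.coe_ne_zero b, fun i => ?_⟩
  have := hz i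
  rw [zsmul_eq_mul] at this
  simpa using this

/-- one form -/
lemma exists_y_one {c : ℕ} (m : Fin c → Fin n → ℤ) (x : Fin n → ℤ)
    (hx : ¬ ∃ k : ℤ, k ≠ 0 ∧ k • x ∈ Submodule.span ℤ (Set.range m)) :
    ∃ y : Fin n → ℤ, (∀ i, pr (m i) y = 0) ∧ pr x y ≠ 0 := by
  classical
  set xq : Fin n → ℚ := fun i => (x i : ℚ) with hxq
  set mq : Fin c → Fin n → ℚ := fun j i => (m j i : ℚ) with hmq
  have hnot : xq ∉ Submodule.span ℚ (Set.range mq) := by
    intro h
    obtain ⟨d, hd⟩ := (Submodule.mem_span_range_iff_exists_fun ℚ).1 h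
    obtain ⟨b, z, hb, hz⟩ := clear_den d
    apply hx
    refine ⟨b, hb, (Submodule.mem_span_range_iff_exists_fun ℤ).2 ⟨z, ?_⟩⟩
    funext i
    have h1 := congrFun hd i
    simp only [Finset.sum_apply, Pi.smul_apply, smul_eq_mul, hmq, hxq] at h1
    have h2 : ((∑ j, z j * m j i : ℤ) : ℚ) = ((b * x i : ℤ) : ℚ) := by
      push_cast
      rw [← h1, Finset.mul_sum]
      refine Finset.sum_congr rfl fun j _ => ?_
      rw [hz j]
      ring
    have h3 : (∑ j, z j * m j i : ℤ) = b * x i := by exact_mod_cast h2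
    simpa [Finset.sum_apply] using h3
  obtain ⟨f, hf, hker⟩ := Submodule.exists_le_ker_of_notMem hnot
  have hf_sum : ∀ w : Fin n → ℚ, f w = ∑ i, w i * f (Pi.single i 1) := by
    intro w
    rw [LinearMap.pi_apply_eq_sum_univ f w]
    refine Finset.sum_congr rfl fun i _ => ?_
    rw [smul_eq_mul]
    congr 2
    funext j
    by_cases h : i = j
    · subst h; simp
    · rw [if_neg h, Pi.single_eq_of_ne (Ne.symm h)]
  obtain ⟨b, y, hb, hy⟩ := clear_den fun i : Fin n => f (Pi.single i 1)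
  have hbq : (b : ℚ) ≠ 0 := by exact_mod_cast hb
  have hpr : ∀ w : Fin n → ℤ, ((pr w y : ℤ) : ℚ) = b * f (fun i => (w i : ℚ)) := by
    intro w
    rw [hf_sum, pr, Finset.mul_sum]
    push_cast
    refine Finset.sum_congr rfl fun i _ => ?_
    rw [hy i]
    ring
  refine ⟨y, fun i => ?_, fun h => ?_⟩
  · have h1 : f (mq i) = 0 := hker (Submodule.subset_span ⟨i, rfl⟩)
    have h2 := hpr (m i)
    have h3 : (fun j => ((m i) j : ℚ)) = mq i := rfl
    rw [h3, h1, mul_zero] at h2
    exact_mod_cast h2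
  · have h2 := hpr x
    rw [h] at h2
    have h3 : (fun j => (x j : ℚ)) = xq := rfl
    rw [h3] at h2
    rcases mul_eq_zero.1 h2.symm with h4 | h4
    · exact hbq h4
    · exact hf h4

lemma finite_bad (α β : ℤ) (h : α ≠ 0 ∨ β ≠ 0) : {T : ℤ | T * α + β = 0}.Finite := by
  by_cases hα : α = 0
  · have hβ : β ≠ 0 := h.resolve_left (fun h => h hα)
    refine Set.Finite.subset Set.finite_empty fun T hT => ?_
    have : T * α + β = 0 := hT
    rw [hα, mul_zero, zero_add] at this
    exact absurd this hβ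
  · refine Set.Subsingleton.finite fun T hT T' hT' => ?_
    have h1 : T * α + β = 0 := hT
    have h2 : T' * α + β = 0 := hT'
    have h3 : T * α = T' * α := by linarith
    exact mul_right_cancel₀ hα h3

/-- many forms -/
lemma exists_y {c : ℕ} (m : Fin c → Fin n → ℤ) (S : Finset (Fin n → ℤ))
    (hS : ∀ x ∈ S, ¬ ∃ k : ℤ, k ≠ 0 ∧ k • x ∈ Submodule.span ℤ (Set.range m)) :
    ∃ y : Fin n → ℤ, (∀ i, pr (m i) y = 0) ∧ ∀ x ∈ S, pr x y ≠ 0 := by
  classical
  induction S using Finset.induction_on with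
  | empty => exact ⟨0, fun i => by simp [pr], fun x hx => by simp at hx⟩
  | insert x S hxS ih =>
    obtain ⟨y, hy1, hy2⟩ := ih fun z hz => hS z (Finset.mem_insert_of_mem hz)
    obtain ⟨w, hw1, hw2⟩ := exists_y_one m x (hS x (Finset.mem_insert_self _ _))
    have hfin : (⋃ z ∈ insert x S, {T : ℤ | T * pr z y + pr z w = 0}).Finite := by
      refine Set.Finite.biUnion (Finset.finite_toSet _) fun z hz => finite_bad _ _ ?_
      rcases Finset.mem_insert.1 hz with rfl | hz
      · exact Or.inr hw2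
      · exact Or.inl (hy2 z hz)
    obtain ⟨T, hT⟩ := hfin.exists_notMem
    refine ⟨T • y + w, fun i => ?_, fun z hz h => ?_⟩
    · rw [pr_add_right, pr_smul_right, hy1 i, hw1 i]
      ring
    · apply hT
      rw [pr_add_right, pr_smul_right] at h
      exact Set.mem_biUnion (x := z) hz h

lemma pr_of_mem {c : ℕ} (m : Fin c → Fin n → ℤ) {y : Fin n → ℤ} (hy : ∀ i, pr (m i) y = 0)
    {x : Fin n → ℤ} (hx : ∃ k : ℤ, k ≠ 0 ∧ k • x ∈ Submodule.span ℤ (Set.range m)) :
    pr x y = 0 := by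
  obtain ⟨k, hk, hmem⟩ := hx
  have h1 : ∀ z ∈ Submodule.span ℤ (Set.range m), pr z y = 0 := by
    intro z hz
    induction hz using Submodule.span_induction with
    | mem z hz => obtain ⟨i, rfl⟩ := hz; exact hy i
    | zero => exact pr_zero y
    | add z w _ _ hz hw => rw [pr_add, hz, hw, add_zero]
    | smul t z _ hz => rw [pr_smul, hz, mul_zero]
  have h2 := h1 _ hmem
  rw [pr_smul] at h2
  exact (mul_eq_zero.1 h2).resolve_left hk

/-! ### sums of monomials of order zero -/

/-- the sum with coefficients `b` -/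
noncomputable def FF (K : Type) [Field K] [Algebra ℂ K]
    [Algebra (MvPolynomial (Fin n) ℂ) K] [IsFractionRing (MvPolynomial (Fin n) ℂ) K]
    [IsScalarTower ℂ (MvPolynomial (Fin n) ℂ) K] (A : Finset (Fin n → ℤ))
    (b : (Fin n → ℤ) → ℂ) : K :=
  ∑ x ∈ A, algebraMap ℂ K (b x) * ym K x

lemma tor_FF (l : Fin n) (A : Finset (Fin n → ℤ)) (b : (Fin n → ℤ) → ℂ) :
    tor K l (FF K A b) = FF K A fun x => b x * (x l : ℂ) := by
  unfold FF
  rw [map_sum]
  refine Finset.sum_congr rfl fun x _ => ?_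
  rw [← Algebra.smul_def, (tor K l).map_smul, tor_ym, Algebra.smul_def, map_mul, map_intCast]
  ring

lemma D_FF (y : Fin n → ℤ) (A : Finset (Fin n → ℤ)) (b : (Fin n → ℤ) → ℂ) :
    ∑ l : Fin n, (y l : K) * tor K l (FF K A b) = FF K A fun x => b x * (pr x y : ℂ) := by
  simp_rw [tor_FF]
  unfold FF
  simp_rw [Finset.mul_sum]
  rw [Finset.sum_comm]
  refine Finset.sum_congr rfl fun x _ => ?_
  have h : algebraMap ℂ K (b x * (pr x y : ℂ)) = ∑ l : Fin n, (y l : K) *
      algebraMap ℂ K (b x * (x l : ℂ)) := by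
    rw [map_mul, map_intCast, pr, Int.cast_sum, Finset.mul_sum]
    refine Finset.sum_congr rfl fun l _ => ?_
    rw [Int.cast_mul, map_mul, map_intCast]
    ring
  rw [h, Finset.sum_mul]
  refine Finset.sum_congr rfl fun l _ => ?_
  ring

lemma reg_zero (v : DVal K) : v.Reg 0 := Or.inl rfl

lemma pos_zero (v : DVal K) : v.Pos 0 := Or.inl rfl

lemma reg_FF {v : DVal K} {A : Finset (Fin n → ℤ)} (hA : ∀ x ∈ A, pr x (tv v) = 0)
    (b : (Fin n → ℤ) → ℂ) : v.Reg (FF K A b) := by
  classical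
  unfold FF
  induction A using Finset.induction_on with
  | empty => rw [Finset.sum_empty]; exact reg_zero v
  | insert x S hx ih =>
    rw [Finset.sum_insert hx]
    refine v.reg_add (v.reg_mul (v.reg_const _) (Or.inr ?_))
      (ih fun z hz => hA z (Finset.mem_insert_of_mem hz))
    rw [ord_ym, hA x (Finset.mem_insert_self _ _)]

lemma pos_sum {v : DVal K} {ι : Type} (s : Finset ι) (F : ι → K) (h : ∀ i ∈ s, v.Pos (F i)) :
    v.Pos (∑ i ∈ s, F i) := by
  classical
  induction s using Finset.induction_on with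
  | empty => rw [Finset.sum_empty]; exact pos_zero v
  | insert i s hi ih =>
    rw [Finset.sum_insert hi]
    exact v.pos_add (h i (Finset.mem_insert_self _ _)) (ih fun j hj => h j (Finset.mem_insert_of_mem hj))

lemma FF_poly (A : Finset (Fin n → ℤ)) (b : (Fin n → ℤ) → ℂ) (r : (Fin n → ℤ) → ℂ)
    (P : Polynomial ℂ) : (FF K A fun x => b x * P.eval (r x)) =
      ∑ k ∈ Finset.range (P.natDegree + 1), algebraMap ℂ K (P.coeff k) *
        FF K A fun x => b x * r x ^ k := by
  unfold FF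
  simp_rw [Finset.mul_sum]
  rw [Finset.sum_comm]
  refine Finset.sum_congr rfl fun x _ => ?_
  rw [Polynomial.eval_eq_sum_range, Finset.mul_sum, map_sum, Finset.sum_mul]
  refine Finset.sum_congr rfl fun k _ => ?_
  rw [map_mul, map_mul, map_mul]
  ring

end P4

open P4

theorem vandermonde {v : DVal K} {c : ℕ} (m : Fin c → Fin n → ℤ)
    (A : Finset (Fin n → ℤ)) (a : (Fin n → ℤ) → ℂ) (hA : ∀ x ∈ A, pr x (tv v) = 0)
    (hf : v.Pos (∑ x ∈ A, algebraMap ℂ K (a x) * ym K x)) :
    (∀ A' : Finset (Fin n → ℤ), (∀ x, x ∈ A' ↔ x ∈ A ∧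
      ∃ k : ℤ, k ≠ 0 ∧ k • x ∈ Submodule.span ℤ (Set.range m)) →
      v.Pos (∑ x ∈ A', algebraMap ℂ K (a x) * ym K x)) ∨
    ∃ (H : K) (y : Fin n → ℤ), v.Pos H ∧ (∀ l : Fin n, v.Reg (tor K l H)) ∧ (∀ i, pr (m i) y = 0) ∧
      ¬ v.Pos (∑ l : Fin n, (y l : K) * tor K l H) := by
  classical
  obtain ⟨y, hy1, hy2⟩ := exists_y m (A.filter fun x =>
    ¬ ∃ k : ℤ, k ≠ 0 ∧ k • x ∈ Submodule.span ℤ (Set.range m))
    (fun x hx => (Finset.mem_filter.1 hx).2)
  by_cases hall : ∀ k : ℕ, v.Pos (FF K A fun x => a x * (pr x y : ℂ) ^ k)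
  · left
    intro A' hA'
    -- the polynomial
    set R : Finset ℤ := (A.image fun x => pr x y).erase 0 with hR
    set P : Polynomial ℂ := ∏ r ∈ R, (Polynomial.X - Polynomial.C (r : ℂ)) with hP
    have hP0 : P.eval 0 ≠ 0 := by
      rw [hP, Polynomial.eval_prod]
      refine Finset.prod_ne_zero_iff.2 fun r hr => ?_
      have hr0 := (Finset.mem_erase.1 hr).1
      simp only [Polynomial.eval_sub, Polynomial.eval_X, Polynomial.eval_C, zero_sub, ne_eq,
        neg_eq_zero]
      exact_mod_cast hr0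
    have hPr : ∀ x ∈ A, pr x y ≠ 0 → P.eval (pr x y : ℂ) = 0 := by
      intro x hx h
      rw [hP, Polynomial.eval_prod]
      refine Finset.prod_eq_zero (i := pr x y) ?_ (by simp)
      exact Finset.mem_erase.2 ⟨h, Finset.mem_image_of_mem _ hx⟩
    have h1 : v.Pos (FF K A fun x => a x * P.eval (pr x y : ℂ)) := by
      rw [FF_poly A a (fun x => (pr x y : ℂ)) P]
      refine pos_sum _ _ fun k _ => ?_
      exact v.pos_mul_left (v.reg_const _) (hall k)
    have hmem : ∀ x, x ∈ A' ↔ x ∈ A ∧ pr x y = 0 := by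
      intro x
      rw [hA' x]
      constructor
      · rintro ⟨h2, h3⟩
        exact ⟨h2, pr_of_mem m hy1 h3⟩
      · rintro ⟨h2, h3⟩
        refine ⟨h2, ?_⟩
        by_contra h4
        exact hy2 x (Finset.mem_filter.2 ⟨h2, h4⟩) h3
    have hAA : A' = A.filter fun x => pr x y = 0 := by
      ext x
      rw [hmem, Finset.mem_filter]
    have h2 : (FF K A fun x => a x * P.eval (pr x y : ℂ)) =
        algebraMap ℂ K (P.eval 0) * ∑ x ∈ A', algebraMap ℂ K (a x) * ym K x := by
      unfold FF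
      rw [hAA, Finset.sum_filter, Finset.mul_sum]
      refine Finset.sum_congr rfl fun x hx => ?_
      change algebraMap ℂ K (a x * P.eval (pr x y : ℂ)) * ym K x = _
      by_cases h : pr x y = 0
      · rw [if_pos h, h, Int.cast_zero, map_mul]
        ring
      · rw [if_neg h, hPr x hx h, mul_zero, map_zero, zero_mul, mul_zero]
    have h3 : (∑ x ∈ A', algebraMap ℂ K (a x) * ym K x) =
        algebraMap ℂ K (P.eval 0)⁻¹ * (FF K A fun x => a x * P.eval (pr x y : ℂ)) := by
      rw [h2, ← mul_assoc, ← map_mul, inv_mul_cancel₀ hP0, map_one, one_mul]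
    rw [h3]
    exact v.pos_mul_left (v.reg_const _) h1
  · right
    push Not at hall
    set k := Nat.find hall with hk
    have hk1 : ¬ v.Pos (FF K A fun x => a x * (pr x y : ℂ) ^ k) := Nat.find_spec hall
    have hk0 : k ≠ 0 := by
      intro h
      apply hk1
      rw [h]
      simpa [FF] using hf
    obtain ⟨j, hj⟩ := Nat.exists_eq_succ_of_ne_zero hk0
    have hj1 : v.Pos (FF K A fun x => a x * (pr x y : ℂ) ^ j) := by
      by_contra h
      exact Nat.find_min hall (show j < Nat.find hall by rw [← hk, hj]; exact Nat.lt_succ_self j) h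
    refine ⟨FF K A fun x => a x * (pr x y : ℂ) ^ j, y, hj1, fun l => ?_, hy1, ?_⟩
    · rw [tor_FF]
      exact reg_FF hA _
    · rw [D_FF]
      intro h
      apply hk1
      rw [hj]
      have : (fun x : Fin n → ℤ => a x * (pr x y : ℂ) ^ j * (pr x y : ℂ)) =
          fun x => a x * (pr x y : ℂ) ^ (j + 1) := by
        funext x
        ring
      rw [this] at h
      exact h

end Pool.Agent.TH165.LSC
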