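import Mathlib
import Pool.Agent.TH165.LSC.Nu
import Pool.Agent.TH165.LSC.P4

/-!
# An additional relation
-/

set_option autoImplicit false
set_option linter.unusedSectionVars false

namespace Pool.Agent.TH165.LSC

open Pool.Agent.H436R3.Fol Pool.Agent.H436R3.KT Pool.Agent.W497.Mld Pool.Agent.TH165.ACC
  MvPolynomial

variable {n : ℕ} {K : Type} [Field K] [Algebra ℂ K]
  [Algebra (MvPolynomial (Fin n) ℂ) K] [IsFractionRing (MvPolynomial (Fin n) ℂ) K]
  [IsScalarTower ℂ (MvPolynomial (Fin n) ℂ) K]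

theorem exists_residue (v : DVal K) : ∃ (L : Type) (_ : Field L) (_ : Algebra ℂ L)
    (φ : v.O →+* L), (∀ x : v.O, φ x = 0 ↔ v.Pos (x : K)) ∧
      ∀ (c : ℂ) (x : v.O), (x : K) = algebraMap ℂ K c → φ x = algebraMap ℂ L c := by
  let L := FractionRing (v.O ⧸ mvI v)
  let φ : v.O →+* L := (algebraMap (v.O ⧸ mvI v) L).comp (Ideal.Quotient.mk (mvI v))
  let ι : ℂ →+* v.O := (algebraMap ℂ K).codRestrict v.O fun c => v.reg_const c
  letI : Algebra ℂ L := (φ.comp ι).toAlgebra
  refine ⟨L, inferInstance, inferInstance, φ, fun x => ?_, fun c x hx => ?_⟩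
  · change algebraMap (v.O ⧸ mvI v) L (Ideal.Quotient.mk (mvI v) x) = 0 ↔ _
    rw [map_eq_zero_iff _ (IsFractionRing.injective (v.O ⧸ mvI v) L),
      Ideal.Quotient.eq_zero_iff_mem]
    rfl
  · have : x = ι c := Subtype.ext hx
    rw [this]
    rfl

theorem extra {g : ToricGerm n K} {v : DVal K} (hv : OverAt g.P v)
    {p : MvPolynomial (Fin n) ℂ} {s1 : Fin n →₀ ℕ} (hs1 : s1 ∈ p.support)
    (hmin : ∀ s ∈ p.support, pr (ACC.ex s1) (tv v) ≤ pr (ACC.ex s) (tv v))
    (hpos : v.Pos (jo (Fin n) K p * ym K (-ACC.ex s1)))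
    {c : ℕ} (μ : Fin c → Fin n → ℤ)
    (hδ : ∀ s ∈ p.support, (∃ k : ℤ, k ≠ 0 ∧
      k • (ACC.ex s - ACC.ex s1) ∈ Submodule.span ℤ (Set.range μ)) →
        ACC.ex s - ACC.ex s1 ∈ Cn g.E) :
    ∃ (H : K) (y : Fin n → ℤ), v.Pos H ∧ (∀ l : Fin n, v.Reg (tor K l H)) ∧
      (∀ i, pr (μ i) y = 0) ∧ ¬ v.Pos (∑ l : Fin n, (y l : K) * tor K l H) := by
  classical
  let a : (Fin n → ℤ) → ℂ := fun x =>
    p.coeff (Finsupp.equivFunOnFinite.symm fun i => (x i + ACC.ex s1 i).toNat)
  have ha : ∀ s, a (ACC.ex s - ACC.ex s1) = p.coeff s := by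
    intro s
    change p.coeff _ = _
    congr 1
    ext i
    simp [ACC.ex]
  let Fs : Finset (Fin n →₀ ℕ) :=
    p.support.filter fun s => pr (ACC.ex s) (tv v) = pr (ACC.ex s1) (tv v)
  let A : Finset (Fin n → ℤ) := Fs.image fun s => ACC.ex s - ACC.ex s1
  have hA : ∀ x ∈ A, pr x (tv v) = 0 := by
    intro x hx
    obtain ⟨s, hs, rfl⟩ := Finset.mem_image.1 hx
    rw [pr_sub, (Finset.mem_filter.1 hs).2, sub_self]
  have hsum : ∀ F : Finset (Fin n →₀ ℕ), ∑ x ∈ F.image (fun s => ACC.ex s - ACC.ex s1),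
      algebraMap ℂ K (a x) * ym K x =
        ∑ s ∈ F, algebraMap ℂ K (p.coeff s) * ym K (ACC.ex s - ACC.ex s1) := by
    intro F
    rw [Finset.sum_image fun s _ t _ h => ex_inj (sub_left_injective h)]
    exact Finset.sum_congr rfl fun s _ => by rw [ha]
  have htot : jo (Fin n) K p * ym K (-ACC.ex s1) =
      ∑ s ∈ p.support, algebraMap ℂ K (p.coeff s) * ym K (ACC.ex s - ACC.ex s1) := by
    rw [jo_eq_sum, Finset.sum_mul]
    refine Finset.sum_congr rfl fun s _ => ?_
    rw [sub_eq_add_neg, ym_add, mul_assoc]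
  have hf : v.Pos (∑ x ∈ A, algebraMap ℂ K (a x) * ym K x) := by
    have h1 : ∑ x ∈ A, algebraMap ℂ K (a x) * ym K x = jo (Fin n) K p * ym K (-ACC.ex s1) +
        (-1) * ∑ s ∈ p.support.filter
          (fun s => ¬ pr (ACC.ex s) (tv v) = pr (ACC.ex s1) (tv v)),
          algebraMap ℂ K (p.coeff s) * ym K (ACC.ex s - ACC.ex s1) := by
      rw [htot, ← Finset.sum_filter_add_sum_filter_not p.support
        (fun s => pr (ACC.ex s) (tv v) = pr (ACC.ex s1) (tv v)), hsum]
      ring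
    rw [h1]
    refine v.pos_add hpos (v.pos_mul_left (v.reg_neg v.reg_one) ?_)
    have h2 : ∀ S : Finset (Fin n →₀ ℕ), (∀ s ∈ S, s ∈ p.support ∧
        ¬ pr (ACC.ex s) (tv v) = pr (ACC.ex s1) (tv v)) →
        v.Pos (∑ s ∈ S, algebraMap ℂ K (p.coeff s) * ym K (ACC.ex s - ACC.ex s1)) := by
      intro S
      induction S using Finset.induction_on with
      | empty => intro _; exact Or.inl (by simp)
      | insert b S hb ih =>
        intro hS
        rw [Finset.sum_insert hb]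
        refine v.pos_add ?_ (ih fun s hs => hS s (Finset.mem_insert_of_mem hs))
        obtain ⟨h3, h4⟩ := hS b (Finset.mem_insert_self b S)
        have h5 := hmin b h3
        refine v.pos_mul_left (v.reg_const _) (Or.inr ?_)
        rw [ord_ym, pr_sub]
        omega
    exact h2 _ fun s hs => Finset.mem_filter.1 hs
  rcases vandermonde (K := K) μ A a hA hf with h | h
  · exfalso
    let A' : Finset (Fin n → ℤ) := A.filter fun x =>
      ∃ k : ℤ, k ≠ 0 ∧ k • x ∈ Submodule.span ℤ (Set.range μ)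
    have h1 := h A' fun x => by simp [A']
    have hCn : ∀ x ∈ A', x ∈ Cn g.E := by
      intro x hx
      obtain ⟨hxA, hx2⟩ := Finset.mem_filter.1 hx
      obtain ⟨s, hs, rfl⟩ := Finset.mem_image.1 hxA
      exact hδ s (Finset.mem_filter.1 hs).1 hx2
    have hmemR : ∀ x ∈ Cn g.E, ym K x ∈ g.X.R := fun x hx => by
      rw [g.hR]; exact ym_mem_LA hx
    let ee : (Fin n → ℤ) → g.X.R := fun x => if hx : x ∈ Cn g.E then ⟨ym K x, hmemR x hx⟩ else 0
    let F0 : g.X.R := ∑ x ∈ A', a x • ee x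
    have hF0 : (F0 : K) = ∑ x ∈ A', algebraMap ℂ K (a x) * ym K x := by
      simp only [F0]
      rw [AddSubmonoidClass.coe_finsetSum]
      refine Finset.sum_congr rfl fun x hx => ?_
      have : ee x = ⟨ym K x, hmemR x (hCn x hx)⟩ := dif_pos (hCn x hx)
      rw [this, Algebra.smul_def]
      rfl
    have hPF : g.P F0 = a 0 := by
      simp only [F0]
      rw [map_sum, Finset.sum_eq_single (0 : Fin n → ℤ)]
      · have h2 : ee 0 = 1 := by
          change (if hx : (0 : Fin n → ℤ) ∈ Cn g.E then (⟨ym K 0, hmemR 0 hx⟩ : g.X.R) else 0) = 1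
          rw [dif_pos Cn_zero]
          exact Subtype.ext (ym_zero (K := K) (n := n))
        rw [h2, map_smul, map_one, smul_eq_mul, mul_one]
      · intro x hx hx0
        have : ee x = ⟨ym K x, hmemR x (hCn x hx)⟩ := dif_pos (hCn x hx)
        rw [this, map_smul, g.hP _ x (hCn x hx) hx0 rfl, smul_zero]
      · intro h2
        exfalso
        apply h2
        refine Finset.mem_filter.2 ⟨Finset.mem_image.2 ⟨s1, Finset.mem_filter.2 ⟨hs1, rfl⟩,
          sub_self _⟩, 1, one_ne_zero, ?_⟩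
        rw [smul_zero]
        exact Submodule.zero_mem _
    have h2 := hv.2 F0 (by rw [hF0]; exact h1)
    rw [hPF] at h2
    have h3 := ha s1
    rw [sub_self, h2] at h3
    exact (mem_support_iff.1 hs1) h3.symm
  · exact h

end Pool.Agent.TH165.LSC
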