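import Mathlib
import Pool.Agent.TH165.ACC.NFin

/-!
# Relations between the residues of Laurent monomials
-/

set_option autoImplicit false
set_option linter.unusedSectionVars false

namespace Pool.Agent.TH165.LSC

open Pool.Agent.H436R3.Fol Pool.Agent.H436R3.KT Pool.Agent.W497.Mld Pool.Agent.TH165.ACC MvPolynomial

namespace P2

/-- vectors with integral coordinates which are linearly independent over `ℤ` are linearly
independent over every field of characteristic zero -/
theorem linInd_cast {n c : ℕ} {L : Type} [Field L] [CharZero L] (m : Fin c → Fin n → ℤ)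
    (hm : LinearIndependent ℤ m) (a : Fin c → L)
    (h : ∀ l, ∑ i, a i * (m i l : L) = 0) (k : Fin c) : a k = 0 := by
  classical
  have h0 : LinearIndependent ℤ (fun i (l : Fin n) => (m i l : ℚ)) := by
    let f : (Fin n → ℤ) →ₗ[ℤ] (Fin n → ℚ) := (Algebra.linearMap ℤ ℚ).compLeft (Fin n)
    have hf : LinearMap.ker f = ⊥ := by
      rw [LinearMap.ker_eq_bot]
      intro x y hxy
      funext l
      have := congrFun hxy l
      exact Int.cast_injective (α := ℚ) this
    exact hm.map' f hf
  have h1 : LinearIndependent ℚ (fun i (l : Fin n) => (m i l : ℚ)) :=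
    (LinearIndependent.iff_fractionRing ℤ ℚ).1 h0
  have h2 : LinearMap.ker (Fintype.linearCombination ℚ (fun i (l : Fin n) => (m i l : ℚ))) = ⊥ :=
    LinearMap.ker_eq_bot.2 (linearIndependent_iff_injective_fintypeLinearCombination.1 h1)
  obtain ⟨g, hg⟩ := LinearMap.exists_leftInverse_of_injective _ h2
  have h3 : ∀ i k, ∑ l, (m i l : ℚ) * g (Pi.single l 1) k = if i = k then 1 else 0 := by
    intro i k
    have h4 : ∑ l, (m i l : ℚ) * g (Pi.single l 1) k =
        g (∑ l, (m i l : ℚ) • (Pi.single l 1 : Fin n → ℚ)) k := by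
      rw [map_sum, Finset.sum_apply]
      exact Finset.sum_congr rfl fun l _ => by rw [map_smul]; rfl
    have h5 : ∑ l, (m i l : ℚ) • (Pi.single l 1 : Fin n → ℚ) = fun l => (m i l : ℚ) := by
      funext l
      rw [Finset.sum_apply]
      simp [Pi.single_apply]
    have h6 : (fun l => (m i l : ℚ)) =
        Fintype.linearCombination ℚ (fun i (l : Fin n) => (m i l : ℚ)) (Pi.single i 1) := by
      rw [Fintype.linearCombination_apply_single, one_smul]
    rw [h4, h5, h6]
    have h7 := LinearMap.congr_fun hg (Pi.single i 1)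
    rw [LinearMap.comp_apply] at h7
    rw [h7]
    simp [Pi.single_apply, eq_comm]
  have h8 : ∀ i, ((∑ l, (m i l : ℚ) * g (Pi.single l 1) k : ℚ) : L) = if i = k then 1 else 0 := by
    intro i
    rw [h3]
    split_ifs <;> simp
  have h9 : a k = ∑ i, a i * ((∑ l, (m i l : ℚ) * g (Pi.single l 1) k : ℚ) : L) := by
    simp only [h8, mul_ite, mul_one, mul_zero]
    rw [Finset.sum_ite_eq' Finset.univ k, if_pos (Finset.mem_univ k)]
  rw [h9]
  push_cast
  simp only [Finset.mul_sum]
  rw [Finset.sum_comm]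
  refine Finset.sum_eq_zero fun l _ => ?_
  have : ∀ i, a i * ((m i l : L) * ((g (Pi.single l 1) k : ℚ) : L)) =
      (a i * (m i l : L)) * ((g (Pi.single l 1) k : ℚ) : L) := fun i => by ring
  simp only [this]
  rw [← Finset.sum_mul, h l, zero_mul]

/-- the chain rule -/
theorem chain {σ : Type} [Fintype σ] {K : Type} [Field K] [Algebra ℂ K] (D : Derivation ℂ K K)
    (x : σ → K) (G : MvPolynomial σ ℂ) :
    D (aeval x G) = ∑ i, aeval x (pderiv i G) * D (x i) := by
  classical
  induction G using MvPolynomial.induction_on with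
  | C a => simp
  | add p q hp hq =>
    simp only [map_add, hp, hq, add_mul, Finset.sum_add_distrib]
  | mul_X p i hp =>
    rw [map_mul, aeval_X, D.leibniz, hp]
    have h1 : ∀ l, aeval x (pderiv l (p * X i)) * D (x l) =
        x i * (aeval x (pderiv l p) * D (x l)) +
          (if l = i then aeval x p * D (x i) else 0) := by
      intro l
      rw [Derivation.leibniz, pderiv_X, map_add, smul_eq_mul, smul_eq_mul, map_mul, map_mul,
        aeval_X]
      by_cases h : l = i
      · subst h
        simp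
        ring
      · rw [if_neg h, Pi.single_eq_of_ne (Ne.symm h)]
        simp
        ring
    simp only [h1]
    rw [Finset.sum_add_distrib, ← Finset.mul_sum, Finset.sum_ite_eq' Finset.univ i]
    simp only [Finset.mem_univ, if_true, smul_eq_mul]
    ring

/-- the support of a partial derivative -/
theorem supp_pderiv {c : ℕ} (j : Fin c) (G : MvPolynomial (Fin c) ℂ) {s : Fin c →₀ ℕ}
    (hs : s ∈ (pderiv j G).support) : Finsupp.single j 1 + s ∈ G.support := by
  rw [mem_support_iff] at hs ⊢
  intro h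
  apply hs
  have h1 := coeff_euler j G (Finsupp.single j 1 + s)
  rw [coeff_X_mul, h, mul_zero] at h1
  exact h1

theorem vars_pderiv {c : ℕ} (j : Fin c) (G : MvPolynomial (Fin c) ℂ) :
    (pderiv j G).vars ⊆ G.vars := by
  intro i hi
  rw [mem_vars_iff_mem_support] at hi ⊢
  obtain ⟨s, hs, his⟩ := hi
  refine ⟨_, supp_pderiv j G hs, ?_⟩
  rw [Finsupp.mem_support_iff] at his ⊢
  rw [Finsupp.add_apply]
  omega

theorem deg_pderiv {c : ℕ} (j : Fin c) {G : MvPolynomial (Fin c) ℂ} (h : G.degreeOf j ≠ 0) :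
    (pderiv j G).degreeOf j < G.degreeOf j := by
  rw [degreeOf_lt_iff (Nat.pos_of_ne_zero h)]
  intro s hs
  have := monomial_le_degreeOf j (supp_pderiv j G hs)
  rw [Finsupp.add_apply, Finsupp.single_eq_same] at this
  omega

theorem pderiv_ne {c : ℕ} (j : Fin c) {G : MvPolynomial (Fin c) ℂ} (h : G.degreeOf j ≠ 0) :
    pderiv j G ≠ 0 := by
  intro h0
  rw [← mem_vars_iff_degreeOf_ne_zero, mem_vars_iff_mem_support] at h
  obtain ⟨s, hs, his⟩ := h
  have h1 := coeff_euler j G s
  rw [h0, mul_zero, coeff_zero] at h1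
  rw [Finsupp.mem_support_iff] at his
  rw [mem_support_iff] at hs
  exact mul_ne_zero (Nat.cast_ne_zero.2 his) hs h1.symm

/-- the choice of a transcendence basis and of minimal relations -/
theorem choose_rel {c : ℕ} {L : Type} [Field L] [Algebra ℂ L] (y : Fin c → L) :
    ∃ T : Finset (Fin c), AlgebraicIndependent ℂ (fun i : T => y i) ∧
      ∀ j, j ∉ T → ∃ G : MvPolynomial (Fin c) ℂ, aeval y G = 0 ∧ G.vars ⊆ insert j T ∧
        aeval y (pderiv j G) ≠ 0 := by
  classical
  let P : Finset (Fin c) → Prop := fun T => ∀ G : MvPolynomial (Fin c) ℂ, G.vars ⊆ T →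
    aeval y G = 0 → G = 0
  have hP0 : P ∅ := by
    intro G hG h0
    rw [Finset.subset_empty, vars_eq_empty_iff_eq_C] at hG
    rw [hG, aeval_C, map_eq_zero_iff _ (algebraMap ℂ L).injective] at h0
    rw [hG, h0, C_0]
  obtain ⟨T, hT⟩ := (Set.toFinite {T : Finset (Fin c) | P T}).exists_maximal ⟨∅, hP0⟩
  have hTP : P T := hT.1
  refine ⟨T, ?_, ?_⟩
  · rw [algebraicIndependent_iff]
    intro G hG
    have h1 : rename (fun i : T => (i : Fin c)) G = 0 := by
      apply hTP
      · intro i hi
        have := vars_rename _ _ hi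
        rw [Finset.mem_image] at this
        obtain ⟨k, -, rfl⟩ := this
        exact k.2
      · rw [aeval_rename]
        exact hG
    exact (map_eq_zero_iff _ (rename_injective _ Subtype.val_injective)).1 h1
  · intro j hj
    have h1 : ¬ P (insert j T) := by
      intro h
      exact hj (hT.2 (y := insert j T) h (Finset.subset_insert j T) (Finset.mem_insert_self j T))
    simp only [P] at h1
    push Not at h1
    have h2 : ∃ k, ∃ G : MvPolynomial (Fin c) ℂ, G.vars ⊆ insert j T ∧ aeval y G = 0 ∧ G ≠ 0 ∧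
        G.degreeOf j = k := by
      obtain ⟨G, h3, h4, h5⟩ := h1
      exact ⟨_, G, h3, h4, h5, rfl⟩
    obtain ⟨G, h3, h4, h5, h6⟩ := Nat.find_spec h2
    have hdeg : G.degreeOf j ≠ 0 := by
      intro h7
      apply h5
      apply hTP G _ h4
      intro i hi
      rcases Finset.mem_insert.1 (h3 hi) with h8 | h8
      · subst h8
        exact absurd h7 (mem_vars_iff_degreeOf_ne_zero.1 hi)
      · exact h8
    refine ⟨G, h4, h3, fun h7 => ?_⟩
    have h8 := Nat.find_min h2 (m := (pderiv j G).degreeOf j) (by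
      rw [← h6]
      exact deg_pderiv j hdeg)
    exact h8 ⟨pderiv j G, (vars_pderiv j G).trans h3, h7, pderiv_ne j hdeg, rfl⟩

section

variable {K : Type} [Field K] [Algebra ℂ K] (v : DVal K) {c : ℕ} (h : Fin c → v.O)

/-- the evaluation of polynomials at elements of the valuation ring -/
noncomputable def E : MvPolynomial (Fin c) ℂ →+* v.O :=
  eval₂Hom ((algebraMap ℂ K).codRestrict v.O fun a => v.reg_const a) h

theorem coe_E (G : MvPolynomial (Fin c) ℂ) : (E v h G : K) = aeval (fun i => (h i : K)) G := by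
  have h1 : (v.O.subtype).comp (E v h) =
      ((aeval fun i => (h i : K)) : MvPolynomial (Fin c) ℂ →ₐ[ℂ] K).toRingHom := by
    apply MvPolynomial.ringHom_ext
    · intro a
      rw [RingHom.comp_apply, E, coe_eval₂Hom, eval₂_C]
      change _ = aeval (fun i => (h i : K)) (C a)
      rw [aeval_C]
      rfl
    · intro i
      rw [RingHom.comp_apply, E, coe_eval₂Hom, eval₂_X]
      change _ = aeval (fun i => (h i : K)) (X i)
      rw [aeval_X]
      rfl
  exact RingHom.congr_fun h1 G

theorem map_E {L : Type} [Field L] [Algebra ℂ L] (φ : v.O →+* L)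
    (hφc : ∀ (c : ℂ) (x : v.O), (x : K) = algebraMap ℂ K c → φ x = algebraMap ℂ L c)
    (G : MvPolynomial (Fin c) ℂ) : φ (E v h G) = aeval (fun i => φ (h i)) G := by
  have h1 : φ.comp (E v h) =
      ((aeval fun i => φ (h i)) : MvPolynomial (Fin c) ℂ →ₐ[ℂ] L).toRingHom := by
    apply MvPolynomial.ringHom_ext
    · intro a
      rw [RingHom.comp_apply, E, coe_eval₂Hom, eval₂_C]
      change _ = aeval (fun i => φ (h i)) (C a)
      rw [aeval_C]
      exact hφc a _ rfl
    · intro i
      rw [RingHom.comp_apply, E, coe_eval₂Hom, eval₂_X]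
      change _ = aeval (fun i => φ (h i)) (X i)
      rw [aeval_X]
  exact RingHom.congr_fun h1 G

end

end P2

variable {n : ℕ} {K : Type} [Field K] [Algebra ℂ K]
  [Algebra (MvPolynomial (Fin n) ℂ) K] [IsFractionRing (MvPolynomial (Fin n) ℂ) K]
  [IsScalarTower ℂ (MvPolynomial (Fin n) ℂ) K]

theorem exists_rel {v : DVal K} {L : Type} [Field L] [Algebra ℂ L] (φ : v.O →+* L)
    (hφ : ∀ x : v.O, φ x = 0 ↔ v.Pos (x : K))
    (hφc : ∀ (c : ℂ) (x : v.O), (x : K) = algebraMap ℂ K c → φ x = algebraMap ℂ L c)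
    {c : ℕ} (m : Fin c → Fin n → ℤ) (hm : LinearIndependent ℤ m)
    (hm0 : ∀ i, pr (m i) (tv v) = 0) (h : Fin c → v.O) (hh : ∀ i, (h i : K) = ym K (m i)) :
    ∃ (T : Finset (Fin c)) (H : {j // j ∉ T} → K) (DH : {j // j ∉ T} → Fin n → v.O),
      AlgebraicIndependent ℂ (fun i : T => φ (h i)) ∧
      (∀ j, v.Pos (H j)) ∧ (∀ j l, (DH j l : K) = tor K l (H j)) ∧
      LinearIndependent L (fun (j : {j // j ∉ T}) (l : Fin n) => φ (DH j l)) ∧
      ∀ j (x : Fin n → ℤ), (∀ i, pr (m i) x = 0) → ∑ l, φ (DH j l) * (x l : L) = 0 := by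
  classical
  have hchar : CharZero L := charZero_of_injective_algebraMap (algebraMap ℂ L).injective
  obtain ⟨T, hT, hrel⟩ := P2.choose_rel (fun i => φ (h i))
  choose G hG0 hGv hGd using hrel
  have hu : ∀ i, φ (h i) ≠ 0 := by
    intro i h0
    rcases (hφ (h i)).1 h0 with h1 | h1
    · rw [hh] at h1
      exact ym_ne _ h1
    · rw [hh, ord_ym, hm0] at h1
      exact lt_irrefl _ h1
  have hDH : ∀ (j : {j // j ∉ T}) (l : Fin n),
      φ (∑ i, P2.E v h (pderiv i (G j.1 j.2)) * h i * ((m i l : ℤ) : v.O)) =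
      ∑ i, (aeval (fun i => φ (h i)) (pderiv i (G j.1 j.2)) * φ (h i)) * (m i l : L) := by
    intro j l
    rw [map_sum]
    refine Finset.sum_congr rfl fun i _ => ?_
    rw [map_mul, map_mul, map_intCast, P2.map_E v h φ hφc]
  refine ⟨T, fun j => (P2.E v h (G j.1 j.2) : K),
    fun j l => ∑ i, P2.E v h (pderiv i (G j.1 j.2)) * h i * ((m i l : ℤ) : v.O), hT, ?_, ?_, ?_, ?_⟩
  · intro j
    rw [← hφ, P2.map_E v h φ hφc]
    exact hG0 j.1 j.2
  · intro j l
    push_cast
    rw [P2.coe_E, P2.chain]
    refine Finset.sum_congr rfl fun i _ => ?_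
    rw [P2.coe_E, hh, tor_ym]
    ring
  · rw [Fintype.linearIndependent_iff]
    intro a ha j0
    have h1 : ∀ l, ∑ i, (∑ j : {j // j ∉ T}, a j *
        (aeval (fun i => φ (h i)) (pderiv i (G j.1 j.2)) * φ (h i))) * (m i l : L) = 0 := by
      intro l
      have h2 := congrFun ha l
      rw [Finset.sum_apply] at h2
      simp only [Pi.smul_apply, smul_eq_mul, hDH, Pi.zero_apply] at h2
      rw [← h2]
      simp only [Finset.sum_mul, Finset.mul_sum]
      rw [Finset.sum_comm]
      refine Finset.sum_congr rfl fun j _ => Finset.sum_congr rfl fun i _ => by ring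
    have h3 := P2.linInd_cast m hm _ h1 j0.1
    rw [Finset.sum_eq_single j0] at h3
    · rcases mul_eq_zero.1 h3 with h4 | h4
      · exact h4
      · exact absurd h4 (mul_ne_zero (hGd j0.1 j0.2) (hu _))
    · intro j _ hj
      have h4 : (j0.1 : Fin c) ∉ (G j.1 j.2).vars := by
        intro h5
        rcases Finset.mem_insert.1 (hGv j.1 j.2 h5) with h6 | h6
        · exact hj (Subtype.ext h6.symm)
        · exact j0.2 h6
      rw [pderiv_eq_zero_of_notMem_vars h4, map_zero, zero_mul, mul_zero]
    · intro h4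
      exact absurd (Finset.mem_univ _) h4
  · intro j x hx
    simp only [hDH, Finset.sum_mul]
    rw [Finset.sum_comm]
    refine Finset.sum_eq_zero fun i _ => ?_
    have h1 : ((pr (m i) x : ℤ) : L) = 0 := by rw [hx i, Int.cast_zero]
    rw [pr] at h1
    push_cast at h1
    calc ∑ l, aeval (fun i => φ (h i)) (pderiv i (G j.1 j.2)) * φ (h i) * (m i l : L) * (x l : L)
        = (aeval (fun i => φ (h i)) (pderiv i (G j.1 j.2)) * φ (h i)) *
          ∑ l, (m i l : L) * (x l : L) := by
          rw [Finset.mul_sum]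
          exact Finset.sum_congr rfl fun l _ => by ring
      _ = 0 := by rw [h1, mul_zero]

end Pool.Agent.TH165.LSC
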