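import Mathlib
import Pool.Agent.TH165.ACC.NFin
set_option autoImplicit false
set_option linter.unusedSectionVars false
namespace Pool.Agent.TH165.LSC
open Pool.Agent.H436R3.Fol Pool.Agent.H436R3.KT Pool.Agent.W497.Mld Pool.Agent.TH165.ACC MvPolynomial
variable {n : ℕ} {K : Type} [Field K] [Algebra ℂ K]
  [Algebra (MvPolynomial (Fin n) ℂ) K] [IsFractionRing (MvPolynomial (Fin n) ℂ) K]
  [IsScalarTower ℂ (MvPolynomial (Fin n) ℂ) K]

namespace P5

/-- a prime ideal containing no variable has a zero with nonzero coordinates -/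
theorem exists_zero {𝔭 : Ideal (MvPolynomial (Fin n) ℂ)} (h𝔭 : 𝔭.IsPrime)
    (hX : ∀ i, (X i : MvPolynomial (Fin n) ℂ) ∉ 𝔭) :
    ∃ ξ : Fin n → ℂ, (∀ i, ξ i ≠ 0) ∧ ∀ q ∈ 𝔭, eval ξ q = 0 := by
  obtain ⟨ξ, hξ𝔭, hξ⟩ : ∃ ξ ∈ zeroLocus ℂ 𝔭, ∀ i, ξ i ≠ 0 := by
    by_contra h2
    push Not at h2
    have h3 : (∏ i, (X i : MvPolynomial (Fin n) ℂ)) ∈ vanishingIdeal ℂ (zeroLocus ℂ 𝔭) := by
      rw [mem_vanishingIdeal_iff]
      intro ξ hξ
      obtain ⟨i, hi⟩ := h2 ξ hξ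
      rw [map_prod]
      exact Finset.prod_eq_zero (Finset.mem_univ i) (by rw [aeval_X, hi])
    rw [vanishingIdeal_zeroLocus_eq_radical, h𝔭.radical, h𝔭.prod_mem_iff] at h3
    obtain ⟨i, -, hi⟩ := h3
    exact hX i hi
  refine ⟨ξ, hξ, fun q hq => ?_⟩
  have := mem_zeroLocus_iff.1 hξ𝔭 q hq
  rwa [← coe_aeval_eq_eval]

theorem reg_of_ord {v : DVal K} {f : K} (h : v.ord f = 0) : v.Reg f := Or.inr h.ge

theorem reg_int (v : DVal K) (k : ℤ) : v.Reg ((k : ℤ) : K) := by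
  have := v.reg_const (k : ℂ)
  rwa [map_intCast] at this

theorem reg_of_pos {v : DVal K} {f : K} (h : v.Pos f) : v.Reg f := by
  rcases h with h | h
  · exact Or.inl h
  · exact Or.inr (le_of_lt h)

end P5

open P5

theorem grad_ne {v : DVal K} {q : MvPolynomial (Fin n) ℂ} {s0 : Fin n →₀ ℕ} (hs0 : s0 ∈ q.support)
    (hmin : ∀ s ∈ q.support, pr (ex s0) (tv v) ≤ pr (ex s) (tv v))
    (hq : v.Pos (jo (Fin n) K q * ym K (-ex s0)))
    (hnd : ∀ ξ : Fin n → ℂ, (∀ i, ξ i ≠ 0) → eval ξ (lead (tv v) q) = 0 →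
      ∃ l, eval ξ (pderiv l (lead (tv v) q)) ≠ 0) :
    (∀ l : Fin n, v.Reg (tor K l (jo (Fin n) K q * ym K (-ex s0)))) ∧
      ∃ l : Fin n, ¬ v.Pos (tor K l (jo (Fin n) K q * ym K (-ex s0))) := by
  classical
  obtain ⟨π, hπ, h1⟩ := v.surj
  set u : Fin n → ℤ := tv v with hu
  set m0 : ℤ := pr (ex s0) u with hm0
  set w : K := ym K (-ex s0) with hw
  have hw0 : w ≠ 0 := ym_ne _
  have hpm : ∀ m : ℤ, π ^ m ≠ 0 := fun m => zpow_ne_zero _ hπ
  have hprn : ∀ a b : Fin n → ℤ, pr (-a) b = -pr a b := by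
    intro a b
    simp only [pr, Pi.neg_apply, neg_mul, Finset.sum_neg_distrib]
  have hordw : v.ord w = -m0 := by rw [hw, ord_ym, hprn]
  have hr1 : v.Reg (w * π ^ m0) := by
    apply reg_of_ord
    rw [v.map_mul _ _ hw0 (hpm _), v.ord_zpow hπ, h1, hordw]
    ring
  have hr2 : v.Reg (w⁻¹ * π ^ (-m0)) := by
    apply reg_of_ord
    rw [v.map_mul _ _ (inv_ne_zero hw0) (hpm _), v.ord_zpow hπ, h1, v.ord_inv hw0, hordw]
    ring
  have hA : ∀ r : MvPolynomial (Fin n) ℂ, (∀ s ∈ r.support, m0 ≤ pr (ex s) (tv v)) →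
      v.Reg (jo (Fin n) K r * w) := by
    intro r hr
    have h2 := (reg_mul_zpow hπ h1 hr).1
    have h3 : jo (Fin n) K r * w = (jo (Fin n) K r * π ^ (-m0)) * (w * π ^ m0) := by
      have : π ^ (-m0) * π ^ m0 = 1 := by rw [← zpow_add₀ hπ, neg_add_cancel, zpow_zero]
      calc jo (Fin n) K r * w = jo (Fin n) K r * w * (π ^ (-m0) * π ^ m0) := by rw [this, mul_one]
        _ = _ := by ring
    rw [h3]
    exact v.reg_mul h2 hr1
  have hB : ∀ r : MvPolynomial (Fin n) ℂ, (∀ s ∈ r.support, m0 ≤ pr (ex s) (tv v)) →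
      v.Pos (jo (Fin n) K r * w) → v.Pos (Phi hπ h1 (part u m0 r) : K) := by
    intro r hr hp
    have h2 := (reg_mul_zpow hπ h1 hr).2
    have h3 : v.Pos (jo (Fin n) K r * π ^ (-m0)) := by
      have h4 : jo (Fin n) K r * π ^ (-m0) = (w⁻¹ * π ^ (-m0)) * (jo (Fin n) K r * w) := by
        field_simp
      rw [h4]
      exact v.pos_mul_left hr2 hp
    have h5 : (Phi hπ h1 (part u m0 r) : K) = jo (Fin n) K r * π ^ (-m0) +
        (-1) * (jo (Fin n) K r * π ^ (-m0) - (Phi hπ h1 (part u m0 r) : K)) := by ring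
    rw [h5]
    exact v.pos_add h3 (v.pos_mul_left (v.reg_neg v.reg_one) h2)
  have htor : ∀ l : Fin n, tor K l (jo (Fin n) K q * w) =
      jo (Fin n) K (X l * pderiv l q) * w + ((-(s0 l : ℤ) : ℤ) : K) * (jo (Fin n) K q * w) := by
    intro l
    rw [Derivation.leibniz, tor_jo, hw, tor_ym]
    simp only [Pi.neg_apply, Pool.Agent.TH165.ACC.ex, smul_eq_mul]
    ring
  have hEs : ∀ l, ∀ s ∈ (X l * pderiv l q).support, m0 ≤ pr (ex s) (tv v) := fun l s hs =>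
    hmin s (support_euler _ _ hs)
  refine ⟨fun l => ?_, ?_⟩
  · rw [htor]
    exact v.reg_add (hA _ (hEs l)) (v.reg_mul (reg_int v _) (reg_of_pos hq))
  · by_contra hcon
    push Not at hcon
    let 𝔭 : Ideal (MvPolynomial (Fin n) ℂ) := (mvI v).comap (Phi hπ h1)
    have h𝔭 : 𝔭.IsPrime := Ideal.IsPrime.comap _
    have hX : ∀ i, (X i : MvPolynomial (Fin n) ℂ) ∉ 𝔭 := by
      intro i hi
      have h2 : (Phi hπ h1 (X i) : K) = cv K i * π ^ (-v.ord (cv K i)) := by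
        rw [Phi, coe_eval₂Hom, eval₂_X]
      have h3 : v.Pos (cv K i * π ^ (-v.ord (cv K i))) := by
        rw [← h2]
        exact hi
      rcases h3 with h3 | h3
      · exact mul_ne_zero (cv_ne i) (zpow_ne_zero _ hπ) h3
      · rw [v.map_mul _ _ (cv_ne i) (zpow_ne_zero _ hπ), v.ord_zpow hπ, h1] at h3
        omega
    obtain ⟨ξ, hξ, hev⟩ := exists_zero h𝔭 hX
    have hlead : lead u q = part u m0 q := lead_eq ⟨s0, hs0, rfl⟩ hmin
    have hl0 : lead u q ∈ 𝔭 := by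
      rw [hlead]
      exact hB q hmin hq
    have hl1 : ∀ l, X l * pderiv l (lead u q) ∈ 𝔭 := by
      intro l
      rw [hlead, euler_part]
      refine hB _ (hEs l) ?_
      have h2 : jo (Fin n) K (X l * pderiv l q) * w = tor K l (jo (Fin n) K q * w) +
          (((s0 l : ℤ) : ℤ) : K) * (jo (Fin n) K q * w) := by
        rw [htor]
        push_cast
        ring
      rw [h2]
      exact v.pos_add (hcon l) (v.pos_mul_left (reg_int v _) hq)
    obtain ⟨l, hl⟩ := hnd ξ hξ (hev _ hl0)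
    have h2 := hev _ (hl1 l)
    rw [map_mul, eval_X] at h2
    rcases mul_eq_zero.1 h2 with h3 | h3
    · exact hξ l h3
    · exact hl h3

end Pool.Agent.TH165.LSC
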