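import Mathlib
import Pool.Agent.TH165.LSC.Bound
import Pool.Agent.TH165.LSC.Exch
import Pool.Agent.TH165.LSC.Extra
import Pool.Agent.TH165.LSC.P2
import Pool.Agent.TH165.LSC.P3
import Pool.Agent.TH165.LSC.P5

/-!
# Lower semicontinuity of minimal log discrepancies at the fixed points of toric varieties
-/

set_option autoImplicit false
set_option linter.unusedSectionVars false

namespace Pool.Agent.TH165.LSC

open Pool.Agent.H436R3.Fol Pool.Agent.H436R3.KT Pool.Agent.W497.Mld Pool.Agent.TH165.ACC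
  MvPolynomial

variable {n : ℕ} {K : Type} [Field K] [Algebra ℂ K]
  [Algebra (MvPolynomial (Fin n) ℂ) K] [IsFractionRing (MvPolynomial (Fin n) ℂ) K]
  [IsScalarTower ℂ (MvPolynomial (Fin n) ℂ) K]

/-- The boundary `B` is nondegenerate: its coefficients are at most `1`, and its components through
`P` which meet the torus are components of the zero divisor of one nondegenerate polynomial `q`: for
all weights `u` in the cone, the initial form of `q` has no singular zero on the torus. -/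
def NondegHyp (g : ToricGerm n K) (B : EffDiv g.X) : Prop :=
  (∀ v, B.mult v ≤ 1) ∧ ∃ q : MvPolynomial (Fin n) ℂ, q ≠ 0 ∧
    (∀ u, g.InCone u → ∀ ξ : Fin n → ℂ, (∀ i, ξ i ≠ 0) → eval ξ (lead u q) = 0 →
      ∃ l, eval ξ (pderiv l (lead u q)) ≠ 0) ∧
    ∀ v, OnAt g.P v → (∀ i : Fin n, v.ord (cv K i) = 0) → B.mult v ≠ 0 →
      v.Pos (jo (Fin n) K q)

variable (n) in
theorem n_pos (v : DVal K) : 0 < n := by
  rcases isEmpty_or_nonempty (Fin n) with hn | ⟨⟨i⟩⟩
  · exfalso
    obtain ⟨f, hf, h1⟩ := v.surj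
    obtain ⟨a, b, hb, rfl⟩ := exists_frac (MvPolynomial (Fin n) ℂ) f
    have ha : a ≠ 0 := by rintro rfl; simp at hf
    have hu : ∀ q : MvPolynomial (Fin n) ℂ, q ≠ 0 → v.ord (jo (Fin n) K q) = 0 := by
      intro q hq
      rw [eq_C_of_isEmpty q, jo_C]
      apply v.const
      intro h2
      apply hq
      rw [eq_C_of_isEmpty q, h2, C_0]
    rw [← jo_apply, ← jo_apply, v.ord_div (jo_ne ha) (jo_ne hb), hu a ha, hu b hb] at h1
    omega
  · exact i.pos

theorem card_le {g : ToricGerm n K} {v : DVal K} (hv : OverAt g.P v) {I : Ideal g.X.R}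
    (hI : ∀ f, f ∈ I ↔ v.Pos (f : K)) {L : Type} [Field L] [Algebra ℂ L] (φ : v.O →+* L)
    (hφ : ∀ x : v.O, φ x = 0 ↔ v.Pos (x : K))
    (hφc : ∀ (c : ℂ) (x : v.O), (x : K) = algebraMap ℂ K c → φ x = algebraMap ℂ L c)
    {c : ℕ} {μ : Fin c → Fin n → ℤ} (hμ : ∀ i, μ i ∈ Cn g.E) {h : Fin c → v.O}
    (hh : ∀ i, (h i : K) = ym K (μ i)) {T : Finset (Fin c)}
    (hT : AlgebraicIndependent ℂ (fun i : T => φ (h i))) :
    T.card ≤ Cardinal.toNat (Algebra.trdeg ℂ (g.X.R ⧸ I)) := by
  have hreg : ∀ f : g.X.R, (f : K) ∈ v.O := fun f => by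
    obtain ⟨⟨S, -, hRS, hSv⟩, -⟩ := hv
    exact hSv.1 _ (hRS f.2)
  let j : g.X.R →+* v.O := g.X.R.val.toRingHom.codRestrict v.O hreg
  let ι : g.X.R →ₐ[ℂ] L :=
    { toRingHom := φ.comp j
      commutes' := fun z => hφc z _ rfl }
  have hι : ∀ f : g.X.R, f ∈ I → ι f = 0 := fun f hf => (hφ _).2 ((hI f).1 hf)
  let ψ : (g.X.R ⧸ I) →ₐ[ℂ] L := Ideal.Quotient.liftₐ I ι hι
  have hmem : ∀ i, ym K (μ i) ∈ g.X.R := fun i => by rw [g.hR]; exact ym_mem_LA (hμ i)
  let x : T → g.X.R ⧸ I := fun i => Ideal.Quotient.mk I ⟨ym K (μ i), hmem i⟩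
  have hx : ψ ∘ x = fun i : T => φ (h i) := by
    funext i
    change φ (j ⟨ym K (μ i), hmem i⟩) = φ (h i)
    congr 1
    exact Subtype.ext (hh i).symm
  have hind : AlgebraicIndependent ℂ x := by
    apply AlgebraicIndependent.of_comp ψ
    rw [hx]
    exact hT
  have h1 := hind.cardinalMk_le_trdeg
  have hfin : Algebra.FiniteType ℂ g.X.R := (Subalgebra.fg_iff_finiteType _).1 g.X.fg
  have hfin' : Algebra.FiniteType ℂ (g.X.R ⧸ I) :=
    Algebra.FiniteType.of_surjective (Ideal.Quotient.mkₐ ℂ I) (Ideal.Quotient.mkₐ_surjective ℂ I)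
  have h2 : Algebra.trdeg ℂ (g.X.R ⧸ I) < Cardinal.aleph0 :=
    trdeg_lt_aleph0_of_finiteType
  have h3 := Cardinal.toNat_le_toNat h1 h2
  simpa using h3

/-- **Lower semicontinuity** of minimal log discrepancies at the fixed points of toric varieties, for
boundaries with nondegenerate non-toric part. -/
theorem lsc {g : ToricGerm n K} {B : EffDiv g.X} {e : LocEq B g.P} {m : ℝ} (hm0 : 0 ≤ m)
    (hm : Pool.Agent.W497.Mld.IsMld e m) (hB : NondegHyp g B) {v : DVal K} (hv : OverAt g.P v)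
    {a : ℝ} (ha : IsLogDisc e v a) {I : Ideal g.X.R} (hI : ∀ f, f ∈ I ↔ v.Pos (f : K)) :
    m ≤ a + Cardinal.toNat (Algebra.trdeg ℂ (g.X.R ⧸ I)) := by
  classical
  have hn := n_pos n v
  obtain ⟨N, hN, rfl⟩ := ha
  obtain ⟨hB1, q, hq0, hnd, hcomp⟩ := hB
  set u : Fin n → ℤ := tv v with hu
  have huc : g.InCone u := inCone_over hv
  obtain ⟨c, μ, I0, hμli, hμ, -, hpos, hcard, hfull⟩ := exists_rays g huc
  obtain ⟨F, c', hFp, hFd, hc⟩ := fact (n := n) e.ρ e.g e.ne
  have hint : g.Inter (u + ∑ i ∈ I0, g.E i) := by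
    intro x hx hx0
    rw [pr_add_right, pr_sum_right]
    have h1 : ∀ i ∈ I0, 0 ≤ pr x (g.E i) := fun i _ => hx i
    rcases (huc x hx).lt_or_eq with h2 | h2
    · exact add_pos_of_pos_of_nonneg h2 (Finset.sum_nonneg h1)
    · obtain ⟨i, hi, h3⟩ := hpos x hx hx0 h2.symm
      rw [← h2, zero_add]
      exact Finset.sum_pos' h1 ⟨i, hi, h3⟩
  have hbound := mld_le hn hm0 hm hFp hc I0 hint
  obtain ⟨L, _, _, φ, hφ, hφc⟩ := exists_residue v
  have hreg : ∀ i, v.Reg (ym K (μ i)) := fun i => Or.inr (by rw [ord_ym, (hμ i).2])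
  obtain ⟨h0, hh0⟩ : ∃ h0 : Fin c → v.O, ∀ i, (h0 i : K) = ym K (μ i) :=
    ⟨fun i => ⟨ym K (μ i), hreg i⟩, fun i => rfl⟩
  obtain ⟨T, H, DH, hTalg, hHpos, hHD, hHind, hHy⟩ := exists_rel φ hφ hφc μ hμli
    (fun i => (hμ i).2) h0 hh0
  have hk : T.card ≤ Cardinal.toNat (Algebra.trdeg ℂ (g.X.R ⧸ I)) :=
    card_le hv hI φ hφ hφc (fun i => (hμ i).1) hh0 hTalg
  set w : ℕ := Cardinal.toNat (Algebra.trdeg ℂ (g.X.R ⧸ I)) with hw
  have hcardJ : Fintype.card {j : Fin c // j ∉ T} = c - T.card := by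
    rw [Fintype.card_subtype_compl, Fintype.card_fin]
    simp
  have hTc : T.card ≤ c := by
    have := T.card_le_univ
    simpa using this
  -- the relations of the centre
  have hα : (c : ℤ) - T.card ≤ N + 1 := by
    obtain ⟨h1, h2⟩ := jac_card hN φ hφ H hHpos DH hHD hHind
    have h3 : ((Fintype.card {j : Fin c // j ∉ T} : ℕ) : ℤ) ≤ ∑ j, v.ord (H j) := by
      have h4 := Finset.sum_le_sum (s := (Finset.univ : Finset {j : Fin c // j ∉ T}))
        fun j _ => h1 j
      simpa using h4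
    rw [hcardJ] at h3
    omega
  -- orders
  let D : MvPolynomial (Fin n) ℂ → ℤ := fun p => v.ord (jo (Fin n) K p) - nu u p
  let Δ : MvPolynomial (Fin n) ℂ → ℤ := fun p =>
    nu (u + ∑ i ∈ I0, g.E i) p - nu u p - ∑ i ∈ I0, nu (g.E i) p
  have hD0 : ∀ p, p ≠ 0 → 0 ≤ D p := fun p hp => by
    have := nu_le_ord v hp
    simp only [D, hu]
    omega
  have hΔ0 : ∀ p, p ≠ 0 → 0 ≤ Δ p := fun p hp => by
    have := nu_super u I0 g.E hp
    simp only [Δ]
    omega
  have hDm : ∀ p r, p ≠ 0 → r ≠ 0 → D (p * r) = D p + D r := by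
    intro p r hp hr
    simp only [D]
    rw [map_mul, v.map_mul _ _ (jo_ne hp) (jo_ne hr), nu_mul u hp hr]
    ring
  have hDp : ∀ S : Finset (MvPolynomial (Fin n) ℂ), (∀ p ∈ S, p ≠ 0) →
      (∏ p ∈ S, p) ≠ 0 ∧ D (∏ p ∈ S, p) = ∑ p ∈ S, D p := by
    intro S
    induction S using Finset.induction_on with
    | empty =>
      intro _
      have h1 : nu u (1 : MvPolynomial (Fin n) ℂ) = 0 := by
        have := nu_mul u (one_ne_zero (α := MvPolynomial (Fin n) ℂ)) one_ne_zero
        rw [mul_one] at this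
        omega
      simp only [Finset.prod_empty, Finset.sum_empty, D, map_one, v.ord_one, h1]
      simp
    | insert b S hb ih =>
      intro hS
      obtain ⟨h2, h3⟩ := ih fun p hp => hS p (Finset.mem_insert_of_mem hp)
      have hb0 := hS b (Finset.mem_insert_self b S)
      rw [Finset.prod_insert hb, Finset.sum_insert hb, hDm _ _ hb0 h2, h3]
      exact ⟨mul_ne_zero hb0 h2, rfl⟩
  have hThr : ∀ p ∈ F, Thr g p → 0 ≤ c' p ∧ c' p ≤ 1 ∧ (c' p ≠ 0 → p ∣ q) := by
    rintro p hp ⟨hpp, hcv, hon⟩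
    obtain ⟨b, hb, h3⟩ := e.eq _ hon
    have hL := g.local_prime hpp hcv
    have h4 : b = 0 := hb.unique (can_unit g.e g.hT (by rw [← g.hR]; exact hL) hcv)
    have h5 : ∑ r ∈ F, c' r * ((valP K p hpp).ord (jo (Fin n) K r) : ℝ) = c' p := by
      rw [Finset.sum_eq_single p]
      · rw [valP_self]; push_cast; ring
      · intro r hr hrp
        rw [valP_other hpp (hFp r hr).ne_zero fun h => hrp (hFd p hp r hr h).symm]
        push_cast; ring
      · intro h; exact absurd hp h
    rw [hc, h5, h4, Int.cast_zero, zero_add] at h3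
    rw [← h3]
    refine ⟨mult_nonneg B _, hB1 _, fun h6 => ?_⟩
    exact (valP_pos_iff hpp q).1 (hcomp _ hon hcv h6)
  let F' : Finset (MvPolynomial (Fin n) ℂ) := F.filter fun p => Thr g p ∧ c' p ≠ 0
  have hF'D : ∑ p ∈ F', D p ≤ D q := by
    have h5 : ∀ p ∈ F', Prime p ∧ p ∈ F := fun p hp => by
      have := (Finset.mem_filter.1 hp).1
      exact ⟨hFp p this, this⟩
    obtain ⟨h6, h7⟩ := hDp F' fun p hp => (h5 p hp).1.ne_zero
    obtain ⟨r, hr⟩ := prod_dvd F' q (fun p hp => (h5 p hp).1)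
      (fun p hp p' hp' => hFd p (h5 p hp).2 p' (h5 p' hp').2) fun p hp => by
        obtain ⟨h8, h9, h10⟩ := Finset.mem_filter.1 hp
        exact (hThr p h8 h9).2.2 h10
    have hr0 : r ≠ 0 := by
      rintro rfl
      rw [mul_zero] at hr
      exact hq0 hr
    have h8 : D q = D (∏ p ∈ F', p) + D r := by
      rw [← hDm _ _ h6 hr0]
      exact congrArg D hr
    rw [h8, h7]
    have := hD0 r hr0
    linarith
  -- the sum of the differences
  have hterm : ∀ p ∈ F, c' p * ((D p : ℝ) - Δ p) ≤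
      if p ∈ F' then (if 1 ≤ D p ∧ Δ p = 0 then (D p : ℝ) else
        if 1 ≤ D p then (D p : ℝ) - 1 else 0) else 0 := by
    intro p hp
    have hp0 := (hFp p hp).ne_zero
    by_cases h1 : Thr g p
    · obtain ⟨h2, h3, -⟩ := hThr p hp h1
      by_cases h4 : c' p = 0
      · rw [h4, zero_mul, if_neg]
        intro h5
        exact (Finset.mem_filter.1 h5).2.2 h4
      · rw [if_pos (Finset.mem_filter.2 ⟨hp, h1, h4⟩)]
        have hD1 : (0 : ℝ) ≤ D p := by exact_mod_cast hD0 p hp0
        have hΔ1 : (0 : ℝ) ≤ Δ p := by exact_mod_cast hΔ0 p hp0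
        split_ifs with h5 h6
        · rw [h5.2]
          push_cast
          nlinarith
        · have h7 : 1 ≤ Δ p := by
            have := hΔ0 p hp0
            by_contra h8
            exact h5 ⟨h6, by omega⟩
          have h8 : (1 : ℝ) ≤ Δ p := by exact_mod_cast h7
          have h9 : (1 : ℝ) ≤ D p := by exact_mod_cast h6
          nlinarith
        · have h7 : D p = 0 := by
            have := hD0 p hp0
            omega
          rw [h7]
          push_cast
          nlinarith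
    · rw [if_neg fun h5 => h1 (Finset.mem_filter.1 h5).2.1]
      obtain ⟨h2, h3⟩ := not_thr (hFp p hp) h1
      have h4 : D p = 0 := by
        have := h2 v hv
        simp only [D, hu]
        omega
      have h5 : Δ p = 0 := by
        have := h3 u I0 huc
        simp only [Δ]
        omega
      rw [h4, h5]
      simp
  have hsum1 : ∑ p ∈ F, c' p * ((D p : ℝ) - Δ p) ≤ ∑ p ∈ F',
      (if 1 ≤ D p ∧ Δ p = 0 then (D p : ℝ) else if 1 ≤ D p then (D p : ℝ) - 1 else 0) := by
    refine (Finset.sum_le_sum hterm).trans (le_of_eq ?_)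
    rw [← Finset.sum_filter]
    congr 1
    ext p
    simp only [Finset.mem_filter, F']
    tauto
  have hgoal : ∀ S : ℝ, ∑ p ∈ F, c' p * ((D p : ℝ) - Δ p) ≤ S →
      (I0.card : ℝ) - (N + 1) + S ≤ T.card →
      m ≤ 1 + (N : ℝ) - ∑ i, e.ρ i * (v.ord (e.g i) : ℝ) + w := by
    intro S h1 h2
    have h3 : (T.card : ℝ) ≤ w := by exact_mod_cast hk
    have h4 : ∑ p ∈ F, c' p * ((D p : ℝ) - Δ p) =
        ∑ p ∈ F, c' p * (v.ord (jo (Fin n) K p) : ℝ) - ∑ p ∈ F, c' p * (nu u p : ℝ) -
          ∑ p ∈ F, c' p * ((nu (u + ∑ i ∈ I0, g.E i) p : ℝ) - nu u p -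
            ∑ i ∈ I0, (nu (g.E i) p : ℝ)) := by
      rw [← Finset.sum_sub_distrib, ← Finset.sum_sub_distrib]
      refine Finset.sum_congr rfl fun p _ => ?_
      simp only [D, Δ]
      push_cast
      ring
    rw [hc]
    linarith
  have hF'0 : ∀ p ∈ F', p ≠ 0 := fun p hp => (hFp p (Finset.mem_filter.1 hp).1).ne_zero
  have hF'DR : ∑ p ∈ F', (D p : ℝ) ≤ D q := by exact_mod_cast hF'D
  have hαR : (c : ℝ) - T.card ≤ N + 1 := by exact_mod_cast hα
  have hcardR : (I0.card : ℝ) ≤ c := by exact_mod_cast hcard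
  -- the case where no difference contributes
  have hcase0 : (∀ p ∈ F', ¬ 1 ≤ D p) →
      m ≤ 1 + (N : ℝ) - ∑ i, e.ρ i * (v.ord (e.g i) : ℝ) + w := by
    intro h
    refine hgoal 0 (hsum1.trans (le_of_eq ?_)) (by linarith)
    refine Finset.sum_eq_zero fun p hp => ?_
    rw [if_neg fun h1 => h p hp h1.1, if_neg (h p hp)]
  by_cases hDq : D q ≤ 0
  · refine hcase0 fun p hp h1 => ?_
    have h2 : D p ≤ ∑ p ∈ F', D p :=
      Finset.single_le_sum (f := D) (fun p hp => hD0 p (hF'0 p hp)) hp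
    omega
  · obtain ⟨s0, hs0, hs0m⟩ := exists_low u hq0
    have hnuq : nu u q = pr (ACC.ex s0) u := nu_eq hs0 hs0m
    have hford : v.ord (jo (Fin n) K q * ym K (-ACC.ex s0)) = D q := by
      rw [v.map_mul _ _ (jo_ne hq0) (ym_ne _), ord_ym, pr_neg, ← hu, ← hnuq]
      simp only [D]
      ring
    have hfpos : v.Pos (jo (Fin n) K q * ym K (-ACC.ex s0)) := Or.inr (by rw [hford]; omega)
    obtain ⟨hfreg, hfl⟩ := grad_ne hs0 hs0m hfpos (hnd u huc)
    have hβ := jac_exchange hN φ hφ H hHpos DH hHD hHind hfpos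
      (fun l => ⟨tor K l (jo (Fin n) K q * ym K (-ACC.ex s0)), hfreg l⟩) (fun l => rfl) hfl
    rw [hford, hcardJ] at hβ
    have hβR : (D q : ℝ) + (c - T.card) ≤ N + 2 := by
      have h1 : D q + ((c : ℤ) - T.card) ≤ N + 2 := by omega
      exact_mod_cast h1
    have hsum2 : ∑ p ∈ F, c' p * ((D p : ℝ) - Δ p) ≤ D q := by
      refine hsum1.trans (le_trans (Finset.sum_le_sum fun p hp => ?_) hF'DR)
      have h1 : (0 : ℝ) ≤ D p := by exact_mod_cast hD0 p (hF'0 p hp)
      split_ifs <;> linarith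
    by_cases hex : ∃ p ∈ F', 1 ≤ D p ∧ Δ p = 0
    · by_cases hcc : I0.card = c
      · obtain ⟨p, hpF', hDp1, hΔp⟩ := hex
        have hp0 := hF'0 p hpF'
        obtain ⟨s1, hs1, hs1m⟩ := nu_mem (u + ∑ i ∈ I0, g.E i) hp0
        have h1 : ∀ i ∈ I0, nu (g.E i) p ≤ pr (ACC.ex s1) (g.E i) := fun i _ => nu_le _ hs1
        have h2 : nu u p ≤ pr (ACC.ex s1) u := nu_le _ hs1
        have h3 : pr (ACC.ex s1) u + ∑ i ∈ I0, pr (ACC.ex s1) (g.E i) =
            nu u p + ∑ i ∈ I0, nu (g.E i) p := by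
          rw [← pr_sum_right, ← pr_add_right, ← hs1m]
          simp only [Δ] at hΔp
          omega
        have h4 := Finset.sum_le_sum h1
        have h5 : nu u p = pr (ACC.ex s1) u := by omega
        have h6 : ∀ i ∈ I0, nu (g.E i) p = pr (ACC.ex s1) (g.E i) :=
          (Finset.sum_eq_sum_iff_of_le h1).1 (by omega)
        have h7 : v.ord (jo (Fin n) K p * ym K (-ACC.ex s1)) = D p := by
          rw [v.map_mul _ _ (jo_ne hp0) (ym_ne _), ord_ym, pr_neg, ← hu, ← h5]
          simp only [D]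
          ring
        obtain ⟨H', y, hH'pos, hH'reg, hμy, hH'y⟩ := extra hv hs1
          (fun s hs => by rw [← hu, ← h5]; exact nu_le _ hs) (Or.inr (by rw [h7]; omega)) μ
          (fun s hs hk => hfull hcc _ hk fun i hi => by
            rw [pr_sub, ← h6 i hi]
            have := nu_le (g.E i) hs
            omega)
        let DH' : Fin n → v.O := fun l => ⟨tor K l H', hH'reg l⟩
        have hval : ∑ l, φ (DH' l) * (y l : L) ≠ 0 := by
          have h8 : ∑ l, φ (DH' l) * (y l : L) = φ (∑ l, DH' l * (y l : v.O)) := by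
            rw [map_sum]
            exact Finset.sum_congr rfl fun l _ => by rw [map_mul, map_intCast]
          rw [h8]
          intro h9
          apply hH'y
          have h10 := (hφ _).1 h9
          convert h10 using 1
          push_cast
          exact Finset.sum_congr rfl fun l _ => mul_comm _ _
        have hind' : LinearIndependent L (fun (o : Option {j : Fin c // j ∉ T}) (l : Fin n) =>
            φ ((o.elim DH' DH : Fin n → v.O) l)) := by
          have h8 : (fun (o : Option {j : Fin c // j ∉ T}) (l : Fin n) =>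
              φ ((o.elim DH' DH : Fin n → v.O) l)) = fun o : Option {j : Fin c // j ∉ T} =>
              o.elim (fun l => φ (DH' l)) fun j => fun l => φ (DH j l) := by
            funext o
            rcases o with _ | j <;> rfl
          rw [h8]
          refine linearIndependent_option.2 ⟨hHind, fun hmem => hval ?_⟩
          obtain ⟨β, hβ'⟩ := (Submodule.mem_span_range_iff_exists_fun L).1 hmem
          have h9 : ∀ l, φ (DH' l) = ∑ j, β j * φ (DH j l) := by
            intro l
            have := congrFun hβ' l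
            simp only [Finset.sum_apply, Pi.smul_apply, smul_eq_mul] at this
            exact this.symm
          simp only [h9, Finset.sum_mul]
          rw [Finset.sum_comm]
          refine Finset.sum_eq_zero fun j _ => ?_
          simp only [mul_assoc]
          rw [← Finset.mul_sum, hHy j y hμy, mul_zero]
        have hγ := jac_exchange hN φ hφ (fun o : Option {j : Fin c // j ∉ T} => o.elim H' H)
          (by rintro (_ | j); exacts [hH'pos, hHpos j])
          (fun o => o.elim DH' DH) (by rintro (_ | j) l; exacts [rfl, hHD j l]) hind' hfpos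
          (fun l => ⟨tor K l (jo (Fin n) K q * ym K (-ACC.ex s0)), hfreg l⟩) (fun l => rfl) hfl
        rw [hford, Fintype.card_option, hcardJ] at hγ
        have hγR : (D q : ℝ) + (c - T.card) + 1 ≤ N + 2 := by
          have h1 : D q + ((c : ℤ) - T.card) + 1 ≤ N + 2 := by push_cast at hγ; omega
          exact_mod_cast h1
        exact hgoal (D q) hsum2 (by linarith)
      · have h1 : (I0.card : ℝ) + 1 ≤ c := by
          have : I0.card + 1 ≤ c := by omega
          exact_mod_cast this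
        exact hgoal (D q) hsum2 (by linarith)
    · by_cases hex2 : ∃ p0 ∈ F', 1 ≤ D p0
      · obtain ⟨p0, hp0, hDp0⟩ := hex2
        refine hgoal (D q - 1) (hsum1.trans ?_) (by linarith)
        have h1 : ∑ p ∈ F', ((D p : ℝ) - if p = p0 then 1 else 0) ≤ D q - 1 := by
          rw [Finset.sum_sub_distrib, Finset.sum_ite_eq', if_pos hp0]
          linarith
        refine le_trans (Finset.sum_le_sum fun p hp => ?_) h1
        have h2 : (0 : ℝ) ≤ D p := by exact_mod_cast hD0 p (hF'0 p hp)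
        rw [if_neg fun h3 => hex ⟨p, hp, h3⟩]
        by_cases h4 : 1 ≤ D p
        · rw [if_pos h4]
          split_ifs <;> linarith
        · rw [if_neg h4, if_neg (by rintro rfl; exact h4 hDp0)]
          linarith
      · exact hcase0 fun p hp h1 => hex2 ⟨p, hp, h1⟩

end Pool.Agent.TH165.LSC
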